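import Pool.Agent.L5helper58.KS.Defs

/-!
# A machine that looks for a clique

The machine guesses `κ` vertices and then checks that they are pairwise adjacent; it needs
`κ² + 2 κ - 1` steps.
-/

set_option autoImplicit false

namespace Pool.Agent.L5helper58.KS

/-! ### Abstract machines -/

/-- Configurations with states in `Q` and symbols in `A`. -/
structure Cf (Q A : Type) where
  st : Q
  hd : ℤ
  tp : ℤ → A

/-- One step with the transition relation `Tr`. -/
def AStep {Q A : Type} (Tr : Q → A → Q → A → Option Bool → Prop) (c c' : Cf Q A) : Prop :=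
  ∃ q' a' d, Tr c.st (c.tp c.hd) q' a' d ∧
    c' = ⟨q', c.hd + move d, Function.update c.tp c.hd a'⟩

/-- `n` steps. -/
inductive ARun {Q A : Type} (Tr : Q → A → Q → A → Option Bool → Prop) :
    ℕ → Cf Q A → Cf Q A → Prop
  | refl (c : Cf Q A) : ARun Tr 0 c c
  | tail {n : ℕ} {a b c : Cf Q A} : ARun Tr n a b → AStep Tr b c → ARun Tr (n + 1) a c

theorem ARun.trans {Q A : Type} {Tr : Q → A → Q → A → Option Bool → Prop} {n m : ℕ}
    {a b c : Cf Q A} (h : ARun Tr n a b) (h' : ARun Tr m b c) : ARun Tr (n + m) a c := by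
  induction h' with
  | refl => exact h
  | tail _ hs ih => exact (ih h).tail hs

/-! ### The machine -/

/-- The states. -/
inductive St (κ m : ℕ) : Type
  | g (i : Fin (κ + 1))
  | ret (i : Fin κ)
  | sw (i : Fin κ) (v : Fin m)
  | halt

/-- The symbols. -/
abbrev Sy (κ m : ℕ) : Type := Option (Fin κ × Fin m)

/-- The transitions, for the graph `G`. -/
inductive Tr {κ m : ℕ} (G : SimpleGraph (Fin m)) :
    St κ m → Sy κ m → St κ m → Sy κ m → Option Bool → Prop
  | guess (i : Fin κ) (v : Fin m) :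
      Tr G (.g i.castSucc) none (.g i.succ) (some (i, v)) (some true)
  | turn (i : Fin κ) (hi : i.1 = 0) : Tr G (.g (Fin.last κ)) none (.ret i) none (some false)
  | back (i j : Fin κ) (v : Fin m) (h : i < j) :
      Tr G (.ret i) (some (j, v)) (.ret i) (some (j, v)) (some false)
  | pick (i : Fin κ) (v : Fin m) :
      Tr G (.ret i) (some (i, v)) (.sw i v) (some (i, v)) (some true)
  | check (i j : Fin κ) (v w : Fin m) (h : i < j) (hG : G.Adj v w) :
      Tr G (.sw i v) (some (j, w)) (.sw i v) (some (j, w)) (some true)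
  | next (i j : Fin κ) (v : Fin m) (h : i.1 + 1 = j.1) (h2 : j.1 + 1 < κ) :
      Tr G (.sw i v) none (.ret j) none (some false)
  | fin (i : Fin κ) (v : Fin m) (h : i.1 + 2 = κ) : Tr G (.sw i v) none .halt none none

/-- The tape with the first `i` guesses. -/
def tapeOf {κ m : ℕ} (v : Fin κ → Fin m) (i : ℕ) : ℤ → Sy κ m := fun x =>
  if h : 0 ≤ x ∧ x.toNat < i ∧ x.toNat < κ then
    some (⟨x.toNat, h.2.2⟩, v ⟨x.toNat, h.2.2⟩) else none

theorem tapeOf_some {κ m : ℕ} (v : Fin κ → Fin m) {i : ℕ} (j : Fin κ) (hj : j.1 < i) :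
    tapeOf v i (j.1 : ℤ) = some (j, v j) := by
  unfold tapeOf
  rw [dif_pos ⟨Int.natCast_nonneg _, by simpa using hj, by simp⟩]
  simp

theorem tapeOf_eq_some {κ m : ℕ} {v : Fin κ → Fin m} {i : ℕ} {x : ℤ} {j : Fin κ} {w : Fin m}
    (h : tapeOf v i x = some (j, w)) : x = j.1 ∧ w = v j := by
  unfold tapeOf at h
  split_ifs at h with h'
  have h2 := Option.some.inj h
  rw [Prod.mk.injEq] at h2
  obtain ⟨h3, h4⟩ := h2
  subst h3
  refine ⟨?_, h4.symm⟩
  have := h'.1
  simp only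
  omega

theorem tapeOf_eq_none {κ m : ℕ} {v : Fin κ → Fin m} {i : ℕ} {x : ℤ} (hi : i ≤ κ)
    (h : tapeOf v i x = none) (h0 : 0 ≤ x) : (i : ℤ) ≤ x := by
  unfold tapeOf at h
  by_contra hlt
  rw [dif_pos ⟨h0, by omega, by omega⟩] at h
  exact absurd h (by simp)

theorem tapeOf_none {κ m : ℕ} (v : Fin κ → Fin m) {i : ℕ} {x : ℤ} (h : (i : ℤ) ≤ x) :
    tapeOf v i x = none := by
  unfold tapeOf
  rw [dif_neg]
  rintro ⟨h1, h2, -⟩
  omega

theorem tapeOf_update {κ m : ℕ} (v : Fin κ → Fin m) (i : Fin κ) :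
    Function.update (tapeOf v i.1) (i.1 : ℤ) (some (i, v i)) = tapeOf v (i.1 + 1) := by
  funext x
  by_cases hx : x = (i.1 : ℤ)
  · rw [hx, Function.update_self, tapeOf_some v i (Nat.lt_succ_self _)]
  · rw [Function.update_of_ne hx]
    unfold tapeOf
    by_cases h : 0 ≤ x ∧ x.toNat < i.1 ∧ x.toNat < κ
    · rw [dif_pos h, dif_pos ⟨h.1, by omega, h.2.2⟩]
    · rw [dif_neg h, dif_neg]
      rintro ⟨h1, h2, h3⟩
      exact h ⟨h1, by omega, h3⟩

theorem tapeOf_congr {κ m : ℕ} {v v' : Fin κ → Fin m} {i : ℕ}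
    (h : ∀ j : Fin κ, j.1 < i → v j = v' j) : tapeOf v i = tapeOf v' i := by
  funext x
  unfold tapeOf
  split_ifs with h'
  · rw [h _ h'.2.1]
  · rfl

/-- The initial configuration. -/
def cf0 (κ m : ℕ) : Cf (St κ m) (Sy κ m) := ⟨.g 0, 0, fun _ => none⟩

section Complete

variable {κ m : ℕ} {G : SimpleGraph (Fin m)} (v : Fin κ → Fin m)

theorem step_at {q q' : St κ m} {x y : ℤ} {T : ℤ → Sy κ m} {d : Option Bool}
    (h : Tr G q (T x) q' (T x) d) (hy : y = x + move d) :
    AStep (Tr G) ⟨q, x, T⟩ ⟨q', y, T⟩ :=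
  ⟨q', T x, d, h, by rw [hy, Function.update_eq_self]⟩

theorem run_guess (i : ℕ) (hi : i ≤ κ) :
    ARun (Tr G) i (cf0 κ m) ⟨.g ⟨i, by omega⟩, i, tapeOf v i⟩ := by
  induction i with
  | zero =>
    have : tapeOf v 0 = fun _ => none := by
      funext x
      unfold tapeOf
      rw [dif_neg]
      rintro ⟨-, h, -⟩
      omega
    rw [this]
    exact .refl _
  | succ i ih =>
    refine (ih (by omega)).tail ⟨.g ⟨i + 1, by omega⟩,
      some (⟨i, by omega⟩, v ⟨i, by omega⟩), some true, ?_, ?_⟩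
    · change Tr G _ (tapeOf v i (i : ℤ)) _ _ _
      rw [tapeOf_none v le_rfl]
      exact Tr.guess (G := G) ⟨i, by omega⟩ _
    · have := tapeOf_update v ⟨i, by omega⟩
      simp only at this ⊢
      rw [this]
      simp [move]

theorem run_back (i : Fin κ) (n : ℕ) (hn : i.1 + n < κ) :
    ARun (Tr G) n ⟨.ret i, (i.1 + n : ℕ), tapeOf v κ⟩ ⟨.ret i, (i.1 : ℕ), tapeOf v κ⟩ := by
  induction n with
  | zero => exact .refl _
  | succ n ih =>
    have h1 : AStep (Tr G) ⟨.ret i, (i.1 + (n + 1) : ℕ), tapeOf v κ⟩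
        ⟨.ret i, (i.1 + n : ℕ), tapeOf v κ⟩ := by
      refine step_at (d := some false) ?_ (by simp [move]; ring)
      have := tapeOf_some v (i := κ) ⟨i.1 + (n + 1), hn⟩ hn
      rw [this]
      exact Tr.back (G := G) i _ _ (Fin.mk_lt_mk.mpr (by omega) : i < ⟨i.1 + (n + 1), hn⟩)
    have h2 : ARun (Tr G) 1 ⟨.ret i, (i.1 + (n + 1) : ℕ), tapeOf v κ⟩
        ⟨.ret i, (i.1 + n : ℕ), tapeOf v κ⟩ := (ARun.refl _).tail h1
    have h3 := h2.trans (ih (by omega))
    rwa [add_comm 1 n] at h3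

theorem run_check (hv : ∀ a b : Fin κ, a < b → G.Adj (v a) (v b)) (i : Fin κ) (n : ℕ)
    (hn : i.1 + 1 + n ≤ κ) :
    ARun (Tr G) n ⟨.sw i (v i), (i.1 + 1 : ℕ), tapeOf v κ⟩
      ⟨.sw i (v i), (i.1 + 1 + n : ℕ), tapeOf v κ⟩ := by
  induction n with
  | zero => exact .refl _
  | succ n ih =>
    refine (ih (by omega)).tail (step_at (d := some true) ?_ (by simp [move]; ring))
    have := tapeOf_some v (i := κ) ⟨i.1 + 1 + n, by omega⟩ (by simp only; omega)
    rw [this]
    have hlt : i < (⟨i.1 + 1 + n, by omega⟩ : Fin κ) := Fin.mk_lt_mk.mpr (by omega)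
    exact Tr.check (G := G) i _ _ _ hlt (hv _ _ hlt)

/-- One round. -/
theorem run_round (hv : ∀ a b : Fin κ, a < b → G.Adj (v a) (v b)) (i : Fin κ) :
    ARun (Tr G) (2 * (κ - i.1) - 1) ⟨.ret i, (κ - 1 : ℕ), tapeOf v κ⟩
      ⟨.sw i (v i), (κ : ℕ), tapeOf v κ⟩ := by
  have hi := i.2
  have h1 := run_back (G := G) v i (κ - 1 - i.1) (by omega)
  have e1 : i.1 + (κ - 1 - i.1) = κ - 1 := by omega
  rw [e1] at h1
  have h2 : AStep (Tr G) ⟨.ret i, (i.1 : ℕ), tapeOf v κ⟩
      ⟨.sw i (v i), (i.1 + 1 : ℕ), tapeOf v κ⟩ := by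
    refine step_at (d := some true) ?_ (by simp [move])
    rw [tapeOf_some v i i.2]
    exact Tr.pick i _
  have h3 := run_check v hv i (κ - 1 - i.1) (by omega)
  have e2 : i.1 + 1 + (κ - 1 - i.1) = κ := by omega
  rw [e2] at h3
  have h4 := (h1.tail h2).trans h3
  have e3 : κ - 1 - i.1 + 1 + (κ - 1 - i.1) = 2 * (κ - i.1) - 1 := by omega
  rwa [e3] at h4

theorem run_rounds (hκ : 2 ≤ κ) (hv : ∀ a b : Fin κ, a < b → G.Adj (v a) (v b)) (i : ℕ)
    (hi : i + 2 ≤ κ) : ∃ n, n + i * i ≤ κ + 1 + i * (2 * κ + 1) ∧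
      ARun (Tr G) n (cf0 κ m) ⟨.ret ⟨i, by omega⟩, (κ - 1 : ℕ), tapeOf v κ⟩ := by
  induction i with
  | zero =>
    refine ⟨κ + 1, by omega, (run_guess v κ le_rfl).tail (step_at (d := some false) ?_ ?_)⟩
    · rw [tapeOf_none v le_rfl]
      exact Tr.turn (G := G) _ rfl
    · simp only [move]
      push_cast [Nat.cast_sub (by omega : 1 ≤ κ)]
      ring
  | succ i ih =>
    obtain ⟨n, hn, hrun⟩ := ih (by omega)
    have h1 := run_round v hv ⟨i, by omega⟩
    refine ⟨n + (2 * (κ - i) - 1) + 1, ?_, (hrun.trans h1).tail (step_at (d := some false) ?_ ?_)⟩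
    · have e1 : n + (2 * (κ - i) - 1) + 1 + (i + 1) * (i + 1) = n + i * i + (2 * κ + 1) := by
        have : 2 * (κ - i) - 1 + 1 + 2 * i = 2 * κ := by omega
        have e2 : (i + 1) * (i + 1) = i * i + 2 * i + 1 := by ring
        rw [e2]
        omega
      have e3 : (i + 1) * (2 * κ + 1) = i * (2 * κ + 1) + (2 * κ + 1) := by ring
      omega
    · rw [tapeOf_none v le_rfl]
      exact Tr.next (G := G) _ _ _ rfl (by simp only; omega)
    · simp only [move]
      push_cast [Nat.cast_sub (by omega : 1 ≤ κ)]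
      ring

theorem run_complete (hκ : 2 ≤ κ) (hv : ∀ a b : Fin κ, a < b → G.Adj (v a) (v b)) :
    ∃ n, n + 1 ≤ κ * κ + 2 * κ ∧ ∃ c, ARun (Tr G) n (cf0 κ m) c ∧ c.st = .halt := by
  obtain ⟨n, hn, hrun⟩ := run_rounds (G := G) v hκ hv (κ - 2) (by omega)
  have h1 := run_round v hv ⟨κ - 2, by omega⟩
  have h2 : AStep (Tr G) ⟨.sw ⟨κ - 2, by omega⟩ (v ⟨κ - 2, by omega⟩), (κ : ℕ), tapeOf v κ⟩
      ⟨.halt, (κ : ℕ), tapeOf v κ⟩ := by
    refine step_at (d := none) ?_ (by simp [move])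
    rw [tapeOf_none v le_rfl]
    exact Tr.fin (G := G) _ _ (by simp only; omega)
  refine ⟨_, ?_, _, (hrun.trans h1).tail h2, rfl⟩
  simp only
  have e1 : 2 * (κ - (κ - 2)) - 1 = 3 := by omega
  rw [e1]
  obtain ⟨a, rfl⟩ : ∃ a, κ = a + 2 := ⟨κ - 2, by omega⟩
  have e2 : a + 2 - 2 = a := by omega
  rw [e2] at hn
  have e3 : a * (2 * (a + 2) + 1) = 2 * (a * a) + 5 * a := by ring
  have e4 : (a + 2) * (a + 2) = a * a + 4 * a + 4 := by ring
  omega

end Complete

section Sound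

variable {κ m : ℕ} {G : SimpleGraph (Fin m)}

/-- The invariant. -/
def Inv (G : SimpleGraph (Fin m)) (c : Cf (St κ m) (Sy κ m)) : Prop :=
  ∃ v : Fin κ → Fin m,
    (∃ i : Fin (κ + 1), c.st = .g i ∧ c.hd = i.1 ∧ c.tp = tapeOf v i.1) ∨
    (c.tp = tapeOf v κ ∧
      ((∃ i : Fin κ, c.st = .ret i ∧ ∀ a b : Fin κ, a < i → a < b → G.Adj (v a) (v b)) ∨
      (∃ i : Fin κ, c.st = .sw i (v i) ∧ (i.1 : ℤ) < c.hd ∧
        (∀ a b : Fin κ, a < i → a < b → G.Adj (v a) (v b)) ∧
        ∀ b : Fin κ, i < b → (b.1 : ℤ) < c.hd → G.Adj (v i) (v b)) ∨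
      (c.st = .halt ∧ ∀ a b : Fin κ, a < b → G.Adj (v a) (v b))))

theorem inv_start (hm : 0 < m) : Inv G (cf0 κ m) := by
  refine ⟨fun _ => ⟨0, hm⟩, Or.inl ⟨0, rfl, rfl, ?_⟩⟩
  funext x
  unfold tapeOf
  rw [dif_neg]
  · rfl
  · rintro ⟨-, h, -⟩
    simp at h

theorem inv_step {c c' : Cf (St κ m) (Sy κ m)} (hc : Inv G c) (h : AStep (Tr G) c c') :
    Inv G c' := by
  obtain ⟨q, x, T⟩ := c
  obtain ⟨q', a', d, htr, rfl⟩ := h
  obtain ⟨v, ⟨i, hq, hx, hT⟩ | ⟨hT, ⟨i, hq, hadj⟩ | ⟨i, hq, hx, hadj, hadj'⟩ | ⟨hq, hadj⟩⟩⟩ := hc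
  · -- guessing
    simp only at hq hx hT htr ⊢
    subst hq hx hT
    generalize hT : tapeOf v i.1 (i.1 : ℤ) = a at htr
    cases htr with
    | guess j w =>
      refine ⟨Function.update v j w, Or.inl ⟨j.succ, rfl, ?_, ?_⟩⟩
      · simp [move]
      · have h1 : tapeOf v j.1 = tapeOf (Function.update v j w) j.1 := tapeOf_congr fun l hl => by
          rw [Function.update_of_ne]
          rintro rfl
          exact absurd hl (lt_irrefl _)
        have h2 := tapeOf_update (Function.update v j w) j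
        rw [Function.update_self] at h2
        simp only [Fin.val_castSucc, Fin.val_succ]
        rw [h1, h2]
    | turn j hj =>
      refine ⟨v, Or.inr ⟨?_, Or.inl ⟨j, rfl, fun a b ha => ?_⟩⟩⟩
      · simp only [Fin.val_last] at hT ⊢
        rw [← hT, Function.update_eq_self]
      · rw [Fin.lt_def, hj] at ha
        omega
  · -- returning
    simp only at hq hT htr ⊢
    subst hq hT
    generalize hT : tapeOf v κ x = a at htr
    cases htr with
    | back _ j w h =>
      refine ⟨v, Or.inr ⟨?_, Or.inl ⟨i, rfl, hadj⟩⟩⟩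
      simp only
      rw [← hT, Function.update_eq_self]
    | pick _ w =>
      obtain ⟨h1, h2⟩ := tapeOf_eq_some hT
      refine ⟨v, Or.inr ⟨?_, Or.inr (Or.inl ⟨i, ?_, ?_, hadj, fun b hb hb' => ?_⟩)⟩⟩
      · simp only
        rw [← hT, Function.update_eq_self]
      · simp only
        rw [h2]
      · simp only [move]
        omega
      · simp only [move] at hb'
        rw [Fin.lt_def] at hb
        omega
  · -- checking
    simp only at hq hx hT htr hadj' ⊢
    subst hq hT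
    generalize hT : tapeOf v κ x = a at htr
    cases htr with
    | check _ j _ w h hG =>
      obtain ⟨h1, h2⟩ := tapeOf_eq_some hT
      refine ⟨v, Or.inr ⟨?_, Or.inr (Or.inl ⟨i, rfl, ?_, hadj, fun b hb hb' => ?_⟩)⟩⟩
      · simp only
        rw [← hT, Function.update_eq_self]
      · simp only [move]
        omega
      · simp only [move] at hb'
        rcases lt_or_eq_of_le (show (b.1 : ℤ) ≤ x by omega) with h3 | h3
        · exact hadj' b hb h3
        · have : b = j := Fin.ext (by omega)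
          rw [this, ← h2]
          exact hG
    | next _ j _ h h2 =>
      have hx' := tapeOf_eq_none le_rfl hT (by omega)
      refine ⟨v, Or.inr ⟨?_, Or.inl ⟨j, rfl, fun a b ha hab => ?_⟩⟩⟩
      · simp only
        rw [← hT, Function.update_eq_self]
      · rcases lt_or_eq_of_le (show a.1 ≤ i.1 by rw [Fin.lt_def] at ha; omega) with h3 | h3
        · exact hadj a b h3 hab
        · have : a = i := Fin.ext h3
          subst this
          refine hadj' b hab ?_
          have := b.2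
          omega
    | fin _ _ h =>
      have hx' := tapeOf_eq_none le_rfl hT (by omega)
      refine ⟨v, Or.inr ⟨?_, Or.inr (Or.inr ⟨rfl, fun a b hab => ?_⟩)⟩⟩
      · simp only
        rw [← hT, Function.update_eq_self]
      · have hb := b.2
        have hab' := hab
        rw [Fin.lt_def] at hab'
        rcases lt_or_eq_of_le (show a.1 ≤ i.1 by omega) with h3 | h3
        · exact hadj a b h3 hab
        · have : a = i := Fin.ext h3
          subst this
          refine hadj' b hab ?_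
          omega
  · simp only at hq
    subst hq
    simp only at htr
    cases htr

theorem run_sound (hm : 0 < m) {n : ℕ} {c : Cf (St κ m) (Sy κ m)}
    (h : ARun (Tr G) n (cf0 κ m) c) (hc : c.st = .halt) :
    ∃ v : Fin κ → Fin m, ∀ a b : Fin κ, a < b → G.Adj (v a) (v b) := by
  have key : ∀ (n : ℕ) (a c : Cf (St κ m) (Sy κ m)), ARun (Tr G) n a c → Inv G a → Inv G c := by
    intro n a c h ha
    induction h with
    | refl => exact ha
    | tail _ hs ih => exact inv_step (ih ha) hs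
  obtain ⟨v, ⟨i, hq, -⟩ | ⟨-, ⟨i, hq, -⟩ | ⟨i, hq, -⟩ | ⟨-, hadj⟩⟩⟩ :=
    key n _ _ h (inv_start hm)
  · rw [hq] at hc
    cases hc
  · rw [hq] at hc
    cases hc
  · rw [hq] at hc
    cases hc
  · exact ⟨v, hadj⟩

end Sound

end Pool.Agent.L5helper58.KS
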