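import Pool.Agent.L5helper58.KS.Tab
import Pool.Agent.L5helper58.KS.Red
import Pool.Agent.H520R2.NMDefs

/-!
# Clique problems as halting problems of machines given by tables
-/

set_option autoImplicit false

namespace Pool.Agent.L5helper58.KS

open Pool.Agent.H520R2.NM

/-! ### The table of the machine -/

section Table

variable {κ m n : ℕ} (iQ : St κ m → Fin n) (iA : Sy κ m → Fin n)

/-- The graph with the given edges. -/
abbrev gr (y : Sym2 (Fin m) → Bool) : SimpleGraph (Fin m) :=
  SimpleGraph.fromEdgeSet {e | y e = true}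

open Classical in
/-- The table of the machine for the graph `y`. -/
noncomputable def tabOf (y : Sym2 (Fin m) → Bool) (e : Tab n) : Bool :=
  decide (∃ q a q' a', Tr (gr y) q a q' a' e.2.2.2.2 ∧ iQ q = e.1 ∧ iA a = e.2.1 ∧
    iQ q' = e.2.2.1 ∧ iA a' = e.2.2.2.1)

/-- The configuration of the machine with the table. -/
def im (c : Cf (St κ m) (Sy κ m)) : Config :=
  ⟨(iQ c.st).val, c.hd, fun x => (iA (c.tp x)).val⟩

variable {iQ iA}

theorem step_im (hQ : Function.Injective iQ) (hA : Function.Injective iA)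
    (y : Sym2 (Fin m) → Bool) (c : Cf (St κ m) (Sy κ m)) (d : Config) :
    Step (machineOf (tabOf iQ iA y)) (im iQ iA c) d ↔
      ∃ c', AStep (Tr (gr y)) c c' ∧ d = im iQ iA c' := by
  classical
  have hupd : ∀ a', Function.update (fun x => (iA (c.tp x)).val) c.hd (iA a').val =
      fun x => (iA (Function.update c.tp c.hd a' x)).val := by
    intro a'
    funext x
    by_cases hx : x = c.hd
    · rw [hx, Function.update_self, Function.update_self]
    · rw [Function.update_of_ne hx, Function.update_of_ne hx]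
  constructor
  · rintro ⟨q, a, q', a', dir, hmem, hq, ha, rfl⟩
    rw [mem_machineOf] at hmem
    obtain ⟨e, he, hcode⟩ := hmem
    unfold tabOf at he
    rw [decide_eq_true_iff] at he
    obtain ⟨p, b, p', b', htr, h1, h2, h3, h4⟩ := he
    simp only [code, Prod.mk.injEq] at hcode
    obtain ⟨e1, e2, e3, e4, e5⟩ := hcode
    rw [← h1] at e1
    rw [← h2] at e2
    rw [← h3] at e3
    rw [← h4] at e4
    rw [e5] at htr
    have hp : p = c.st := hQ (Fin.ext (e1.trans hq.symm))
    have hb : b = c.tp c.hd := hA (Fin.ext (e2.trans ha.symm))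
    subst hp hb
    refine ⟨⟨p', c.hd + move dir, Function.update c.tp c.hd b'⟩, ⟨p', b', dir, htr, rfl⟩, ?_⟩
    rw [← e3, ← e4]
    change (⟨_, _, _⟩ : Config) = ⟨_, _, _⟩
    rw [← hupd]
    rfl
  · rintro ⟨c', ⟨q', a', dir, htr, rfl⟩, rfl⟩
    refine ⟨(iQ c.st).val, (iA (c.tp c.hd)).val, (iQ q').val, (iA a').val, dir, ?_, rfl, rfl, ?_⟩
    · rw [mem_machineOf]
      refine ⟨(iQ c.st, iA (c.tp c.hd), iQ q', iA a', dir), ?_, rfl⟩
      unfold tabOf
      rw [decide_eq_true_iff]
      exact ⟨_, _, _, _, htr, rfl, rfl, rfl, rfl⟩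
    · change (⟨_, _, _⟩ : Config) = ⟨_, _, _⟩
      rw [← hupd]
      rfl

theorem halts_im (hQ : Function.Injective iQ) (hA : Function.Injective iA)
    (hQ0 : (iQ (.g 0)).val = 0) (hQ1 : (iQ .halt).val = 1) (hA0 : (iA none).val = 0)
    (y : Sym2 (Fin m) → Bool) (k : ℕ) :
    Halts (machineOf (tabOf iQ iA y)) k ↔
      ∃ l ≤ k, ∃ c, ARun (Tr (gr y)) l (cf0 κ m) c ∧ c.st = .halt := by
  have h0 : im iQ iA (cf0 κ m) = ⟨0, 0, fun _ => 0⟩ := by
    unfold im cf0
    simp only
    rw [hQ0, hA0]
  constructor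
  · rintro ⟨l, hl, c, hc0, hstep, hfin⟩
    have key : ∀ i ≤ l, ∃ a, ARun (Tr (gr y)) i (cf0 κ m) a ∧ c i = im iQ iA a := by
      intro i
      induction i with
      | zero =>
        intro _
        exact ⟨_, .refl _, hc0.trans h0.symm⟩
      | succ i ih =>
        intro hi
        obtain ⟨a, ha, hca⟩ := ih (by omega)
        have h1 := hstep i (by omega)
        rw [hca, step_im hQ hA] at h1
        obtain ⟨a', ha', h2⟩ := h1
        exact ⟨a', ha.tail ha', h2⟩
    obtain ⟨a, ha, hca⟩ := key l le_rfl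
    refine ⟨l, hl, a, ha, hQ (Fin.ext ?_)⟩
    rw [hca] at hfin
    have h1 : (iQ a.st).val ∈ ([1] : List ℕ) := hfin
    rw [List.mem_singleton] at h1
    rw [h1, hQ1]
  · rintro ⟨l, hl, c, hrun, hc⟩
    have key : ∀ (i : ℕ) (a b : Cf (St κ m) (Sy κ m)), ARun (Tr (gr y)) i a b →
        ∃ f : ℕ → Config, f 0 = im iQ iA a ∧
          (∀ j < i, Step (machineOf (tabOf iQ iA y)) (f j) (f (j + 1))) ∧ f i = im iQ iA b := by
      intro i a b h
      induction h with
      | refl a => exact ⟨fun _ => im iQ iA a, rfl, fun j hj => by omega, rfl⟩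
      | @tail i a b c _ hs ih =>
        obtain ⟨f, hf0, hf, hfi⟩ := ih
        refine ⟨fun j => if j ≤ i then f j else im iQ iA c, ?_, fun j hj => ?_, ?_⟩
        · simp only [Nat.zero_le, if_true]
          exact hf0
        · rcases Nat.lt_succ_iff_lt_or_eq.mp hj with h1 | h1
          · simp only
            rw [if_pos (by omega), if_pos (by omega)]
            exact hf j h1
          · subst h1
            simp only
            rw [if_pos le_rfl, if_neg (by omega), hfi, step_im hQ hA]
            exact ⟨c, hs, rfl⟩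
        · simp only
          rw [if_neg (by omega)]
    obtain ⟨f, hf0, hf, hfl⟩ := key l _ _ hrun
    refine ⟨l, hl, f, hf0.trans h0, hf, ?_⟩
    rw [hfl]
    change (iQ c.st).val ∈ ([1] : List ℕ)
    rw [hc, hQ1]
    exact List.mem_singleton.mpr rfl

theorem clique_iff_halts (hκ : 2 ≤ κ) (hm : 0 < m) (hQ : Function.Injective iQ)
    (hA : Function.Injective iA) (hQ0 : (iQ (.g 0)).val = 0) (hQ1 : (iQ .halt).val = 1)
    (hA0 : (iA none).val = 0) (y : Sym2 (Fin m) → Bool) {k : ℕ}
    (hk : κ * κ + 2 * κ ≤ k + 1) :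
    Halts (machineOf (tabOf iQ iA y)) k ↔ ¬ (gr y).CliqueFree κ := by
  rw [halts_im hQ hA hQ0 hQ1 hA0]
  have hcl : ¬ (gr y).CliqueFree κ ↔
      ∃ v : Fin κ → Fin m, ∀ a b : Fin κ, a < b → (gr y).Adj (v a) (v b) := by
    rw [SimpleGraph.not_cliqueFree_iff_top_isContained]
    constructor
    · rintro ⟨f⟩
      exact ⟨f, fun a b hab => f.toHom.map_adj (by simpa using hab.ne)⟩
    · rintro ⟨v, hv⟩
      have hne : ∀ a b : Fin κ, a ≠ b → (gr y).Adj (v a) (v b) := by
        intro a b hab
        rcases lt_or_gt_of_ne hab with h | h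
        · exact hv a b h
        · exact (hv b a h).symm
      have hinj : Function.Injective v := by
        intro a b hab
        by_contra h
        exact (hne a b h).ne hab
      exact ⟨⟨⟨v, fun h => hne _ _ (by simpa using h)⟩, hinj⟩⟩
  rw [hcl]
  constructor
  · rintro ⟨l, -, c, hrun, hc⟩
    exact run_sound hm hrun hc
  · rintro ⟨v, hv⟩
    obtain ⟨l, hl, c, hrun, hc⟩ := run_complete (G := gr y) v hκ hv
    exact ⟨l, by omega, c, hrun, hc⟩

theorem tr_mono_of_not_check {G G' : SimpleGraph (Fin m)} {q : St κ m} {a : Sy κ m}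
    {q' : St κ m} {a' : Sy κ m} {d : Option Bool} (h : Tr G q a q' a' d)
    (hn : ∀ (i j : Fin κ) (v w : Fin m), ¬ (q = .sw i v ∧ a = some (j, w))) :
    Tr G' q a q' a' d := by
  cases h with
  | guess i v => exact .guess i v
  | turn i hi => exact .turn i hi
  | back i j v h => exact .back i j v h
  | pick i v => exact .pick i v
  | check i j v w h hG => exact absurd ⟨rfl, rfl⟩ (hn i j v w)
  | next i j v h h2 => exact .next i j v h h2
  | fin i v h => exact .fin i v h

/-- Every entry of the table is a constant or the bit of an edge. -/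
theorem tabOf_proj (hQ : Function.Injective iQ) (hA : Function.Injective iA) (e : Tab n) :
    (∃ b, ∀ y, tabOf iQ iA y e = b) ∨
      ∃ e' : Sym2 (Fin m), ∀ y, tabOf iQ iA y e = y e' := by
  classical
  by_cases hch : ∃ (i j : Fin κ) (v w : Fin m), i < j ∧ v ≠ w ∧ iQ (.sw i v) = e.1 ∧
      iA (some (j, w)) = e.2.1 ∧ iQ (.sw i v) = e.2.2.1 ∧ iA (some (j, w)) = e.2.2.2.1 ∧
      e.2.2.2.2 = some true
  · obtain ⟨i, j, v, w, hij, hvw, h1, h2, h3, h4, h5⟩ := hch
    right
    refine ⟨s(v, w), fun y => ?_⟩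
    rw [Bool.eq_iff_iff]
    unfold tabOf
    rw [decide_eq_true_iff]
    constructor
    · rintro ⟨q, a, q', a', htr, e1, e2, e3, e4⟩
      obtain rfl := hQ (e1.trans h1.symm)
      obtain rfl := hA (e2.trans h2.symm)
      generalize hd : e.2.2.2.2 = d at htr
      cases htr with
      | check _ _ _ _ h hG =>
        rw [SimpleGraph.fromEdgeSet_adj] at hG
        exact hG.1
    · intro hy
      refine ⟨.sw i v, some (j, w), .sw i v, some (j, w), ?_, h1, h2, h3, h4⟩
      rw [h5]
      refine .check i j v w hij ?_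
      rw [SimpleGraph.fromEdgeSet_adj]
      exact ⟨hy, hvw⟩
  · left
    have key : ∀ y y' : Sym2 (Fin m) → Bool, tabOf iQ iA y e = true →
        tabOf iQ iA y' e = true := by
      intro y y' h
      unfold tabOf at h ⊢
      rw [decide_eq_true_iff] at h ⊢
      obtain ⟨q, a, q', a', htr, e1, e2, e3, e4⟩ := h
      refine ⟨q, a, q', a', ?_, e1, e2, e3, e4⟩
      refine tr_mono_of_not_check htr ?_
      rintro i j v w ⟨rfl, rfl⟩
      generalize hd : e.2.2.2.2 = d at htr
      cases htr with
      | check _ _ _ _ h hG => exact hch ⟨i, j, v, w, h, hG.ne, e1, e2, e3, e4, hd⟩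
    refine ⟨tabOf iQ iA (fun _ => false) e, fun y => ?_⟩
    rw [Bool.eq_iff_iff]
    exact ⟨key _ _, key _ _⟩

end Table

/-! ### Substitution in circuits -/

section Subst

variable {ι ι' : Type} (σ : ι → Wire ι' 0)

/-- A constant or an input. -/
def lift0 {n : ℕ} : Wire ι' 0 → Wire ι' n
  | .input i => .input i
  | .const b => .const b
  | .gate j => j.elim0

/-- Substitution in a wire. -/
def substW {n : ℕ} : Wire ι n → Wire ι' n
  | .input i => lift0 (σ i)
  | .const b => .const b
  | .gate j => .gate j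

/-- Substitution in a circuit. -/
def substC : {n : ℕ} → Circuit ι n → Circuit ι' n
  | _, .empty => .empty
  | _, .and C a b => .and (substC C) (substW σ a) (substW σ b)
  | _, .or C a b => .or (substC C) (substW σ a) (substW σ b)
  | _, .any C w u G a => .any (substC C) w u G (fun j => substW σ (a j))

theorem lift0_eval {n : ℕ} (y : ι' → Bool) (v : Fin n → Bool) (w : Wire ι' 0) :
    (lift0 w : Wire ι' n).eval y v = w.eval y Fin.elim0 := by
  cases w with
  | input i => rfl
  | const b => rfl
  | gate j => exact j.elim0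

theorem substW_eval {n : ℕ} (y : ι' → Bool) (v : Fin n → Bool) (w : Wire ι n) :
    (substW σ w).eval y v = w.eval (fun i => (σ i).eval y Fin.elim0) v := by
  cases w with
  | input i => exact lift0_eval y v (σ i)
  | const b => rfl
  | gate j => rfl

theorem substC_vals {n : ℕ} (y : ι' → Bool) (C : Circuit ι n) :
    (substC σ C).vals y = C.vals (fun i => (σ i).eval y Fin.elim0) := by
  induction C with
  | empty => rfl
  | and C a b ih =>
    simp only [substC, Circuit.vals]
    rw [ih, substW_eval, substW_eval]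
  | or C a b ih =>
    simp only [substC, Circuit.vals]
    rw [ih, substW_eval, substW_eval]
  | any C w u G a ih =>
    simp only [substC, Circuit.vals]
    rw [ih]
    simp only [substW_eval]

theorem substC_size {n : ℕ} (C : Circuit ι n) : (substC σ C).size = C.size := by
  induction C with
  | empty => rfl
  | and C a b ih => simp only [substC, Circuit.size, ih]
  | or C a b ih => simp only [substC, Circuit.size, ih]
  | any C w u G a ih => simp only [substC, Circuit.size, ih]

theorem substC_fanins {n : ℕ} (C : Circuit ι n) : (substC σ C).fanins = C.fanins := by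
  induction C with
  | empty => rfl
  | and C a b ih => simp only [substC, Circuit.fanins, ih]
  | or C a b ih => simp only [substC, Circuit.fanins, ih]
  | any C w u G a ih => simp only [substC, Circuit.fanins, ih]

end Subst

/-- Machine tables by substitution. -/
theorem exists_subst {κ m n : ℕ} {iQ : St κ m → Fin n} {iA : Sy κ m → Fin n}
    (hQ : Function.Injective iQ) (hA : Function.Injective iA) :
    ∃ σ : Tab n → Wire (Sym2 (Fin m)) 0, ∀ y, (fun e => (σ e).eval y Fin.elim0) =
      tabOf iQ iA y := by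
  have h : ∀ e : Tab n, ∃ w : Wire (Sym2 (Fin m)) 0, ∀ y,
      w.eval y Fin.elim0 = tabOf iQ iA y e := by
    intro e
    rcases tabOf_proj hQ hA e with ⟨b, hb⟩ | ⟨e', he'⟩
    · exact ⟨.const b, fun y => (hb y).symm⟩
    · exact ⟨.input e', fun y => (he' y).symm⟩
  choose σ hσ using h
  exact ⟨σ, fun y => funext fun e => hσ e y⟩

/-! ### The embeddings -/

section Embed

/-- The states as a sum. -/
def stEquiv (κ m : ℕ) : St κ m ≃ (Fin (κ + 1) ⊕ Fin κ) ⊕ (Fin κ × Fin m) ⊕ Unit where
  toFun
    | .g i => .inl (.inl i)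
    | .ret i => .inl (.inr i)
    | .sw i v => .inr (.inl (i, v))
    | .halt => .inr (.inr ())
  invFun
    | .inl (.inl i) => .g i
    | .inl (.inr i) => .ret i
    | .inr (.inl (i, v)) => .sw i v
    | .inr (.inr ()) => .halt
  left_inv := by rintro (_ | _ | _ | _) <;> rfl
  right_inv := by rintro ((_ | _) | (_ | _)) <;> rfl

instance (κ m : ℕ) : Fintype (St κ m) := Fintype.ofEquiv _ (stEquiv κ m).symm

theorem card_St (κ m : ℕ) : Fintype.card (St κ m) = κ * m + 2 * κ + 2 := by
  rw [Fintype.card_congr (stEquiv κ m)]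
  simp
  ring

/-- An injection with prescribed values at two points. -/
theorem exists_injection {X : Type} [Fintype X] {n : ℕ} (hn : Fintype.card X ≤ n) {a b : X}
    (hab : a ≠ b) {u v : Fin n} (huv : u ≠ v) :
    ∃ f : X → Fin n, Function.Injective f ∧ f a = u ∧ f b = v := by
  classical
  have h1 : Fintype.card X ≤ Fintype.card (Fin n) := by rwa [Fintype.card_fin]
  obtain ⟨e⟩ := Function.Embedding.nonempty_of_card_le h1
  -- move `e a` to `u`, then the image of `b` to `v`
  let f1 : X → Fin n := fun x => Equiv.swap (e a) u (e x)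
  have hf1 : Function.Injective f1 := (Equiv.injective _).comp e.injective
  have hf1a : f1 a = u := Equiv.swap_apply_left _ _
  have hf1b : f1 b ≠ u := fun h => hab (hf1 (hf1a.trans h.symm))
  refine ⟨fun x => Equiv.swap (f1 b) v (f1 x), (Equiv.injective _).comp hf1, ?_,
    Equiv.swap_apply_left _ _⟩
  simp only
  rw [hf1a, Equiv.swap_apply_of_ne_of_ne hf1b.symm huv]

theorem exists_embeddings {κ m n : ℕ} (hn : κ * m + 2 * κ + 2 ≤ n) :
    ∃ (iQ : St κ m → Fin n) (iA : Sy κ m → Fin n), Function.Injective iQ ∧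
      Function.Injective iA ∧ (iQ (.g 0)).val = 0 ∧ (iQ .halt).val = 1 ∧ (iA none).val = 0 := by
  classical
  have h2 : 2 ≤ n := by omega
  obtain ⟨iQ, hQ, hQ0, hQ1⟩ := exists_injection (X := St κ m) (n := n)
    (by rw [card_St]; exact hn) (a := .g 0) (b := .halt) (by simp)
    (u := ⟨0, by omega⟩) (v := ⟨1, by omega⟩) (by simp)
  have h3 : Fintype.card (Sy κ m) ≤ Fintype.card (Fin n) := by
    simp
    omega
  obtain ⟨e⟩ := Function.Embedding.nonempty_of_card_le h3
  refine ⟨iQ, fun x => Equiv.swap (e none) ⟨0, by omega⟩ (e x), hQ,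
    fun a b h => e.injective (Equiv.injective _ h), by rw [hQ0], by rw [hQ1], ?_⟩
  simp only
  rw [Equiv.swap_apply_left]

end Embed

end Pool.Agent.L5helper58.KS
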