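import Mathlib

/-!
# Constraint satisfaction by a sweep with a small frontier

The variables `i` of a list are processed one after the other; a node of the sweep assigns values to
the processed variables that are still needed. Only nodes in a given list `U` are kept.
-/

set_option autoImplicit false

namespace Pool.Agent.L5helper58.KS

variable {T : Type} [DecidableEq T] (dom : List T) (U : List (List (ℕ × T)))
  (un : ℕ → T → Bool) (co : ℕ → T → ℕ → T → Bool) (need : List ℕ → ℕ → Bool)

/-- One step of the sweep: `P` is the list of the processed variables including `i`, `R` the nodes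
reached before. -/
def sweepStep (P : List ℕ) (i : ℕ) (R : List (List (ℕ × T))) : List (List (ℕ × T)) :=
  U.filter (fun v => R.any (fun u => dom.any (fun t => un i t &&
    (u.all (fun x => co i t x.1 x.2) &&
      decide (v = ((i, t) :: u).filter (fun x => need P x.1))))))

/-- The nodes reached when the variables of `P` are processed (the last one first in the list). -/
def sweep : List ℕ → List (List (ℕ × T))
  | [] => [[]]
  | i :: P => sweepStep dom U un co need (i :: P) i (sweep P)

/-- The sweep as a left fold. -/
def foldF (st : List ℕ × List (List (ℕ × T))) (i : ℕ) : List ℕ × List (List (ℕ × T)) :=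
  (i :: st.1, sweepStep dom U un co need (i :: st.1) i st.2)

theorem foldl_sweep (L P : List ℕ) :
    L.foldl (foldF dom U un co need) (P, sweep dom U un co need P) =
      (L.reverse ++ P, sweep dom U un co need (L.reverse ++ P)) := by
  induction L generalizing P with
  | nil => rfl
  | cons i L ih =>
    have h : foldF dom U un co need (P, sweep dom U un co need P) i =
        (i :: P, sweep dom U un co need (i :: P)) := rfl
    rw [List.foldl_cons, h, ih]
    simp

/-- The node of an assignment. -/
def nodeOf (P : List ℕ) (δ : ℕ → T) : List (ℕ × T) :=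
  (P.filter (need P)).map (fun i => (i, δ i))

/-- The assignment satisfies all constraints between the variables in `P`. -/
def Sats (δ : ℕ → T) : List ℕ → Prop
  | [] => True
  | i :: P => δ i ∈ dom ∧ un i (δ i) = true ∧ (∀ j ∈ P, co i (δ i) j (δ j) = true) ∧ Sats δ P

omit [DecidableEq T] in
theorem nodeOf_cons {δ : ℕ → T} {i : ℕ} {P : List ℕ}
    (hmono : ∀ j ∈ P, need (i :: P) j = true → need P j = true) :
    ((i, δ i) :: nodeOf need P δ).filter (fun x => need (i :: P) x.1) =
      nodeOf need (i :: P) δ := by
  unfold nodeOf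
  have key : ((P.filter (need P)).map (fun i => (i, δ i))).filter (fun x => need (i :: P) x.1) =
      (P.filter (need (i :: P))).map (fun i => (i, δ i)) := by
    rw [List.filter_map]
    congr 1
    rw [List.filter_filter]
    refine List.filter_congr fun j hj => ?_
    simp only [Function.comp]
    cases h1 : need (i :: P) j
    · simp
    · rw [hmono j hj h1]
      rfl
  rw [List.filter_cons, key, List.filter_cons]
  split_ifs <;> rfl

omit [DecidableEq T] in
theorem Sats_congr {δ δ' : ℕ → T} {P : List ℕ} (h : ∀ j ∈ P, δ j = δ' j)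
    (hs : Sats dom un co δ P) : Sats dom un co δ' P := by
  induction P with
  | nil => trivial
  | cons i P ih =>
    obtain ⟨h1, h2, h3, h4⟩ := hs
    have hi := h i (by simp)
    refine ⟨hi ▸ h1, hi ▸ h2, fun j hj => ?_, ih (fun j hj => h j (by simp [hj])) h4⟩
    rw [← hi, ← h j (by simp [hj])]
    exact h3 j hj

omit [DecidableEq T] in
theorem nodeOf_congr {δ δ' : ℕ → T} {P : List ℕ} (h : ∀ j ∈ P, δ j = δ' j) :
    nodeOf need P δ = nodeOf need P δ' := by
  unfold nodeOf
  refine List.map_congr_left fun j hj => ?_
  rw [h j (List.mem_of_mem_filter hj)]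

/-- Soundness. -/
theorem sweep_sound [Inhabited T] (P : List ℕ) (hnd : P.Nodup)
    (hmono : ∀ i Q, (i :: Q) <:+ P → ∀ j ∈ Q, need (i :: Q) j = true → need Q j = true)
    (hneed : ∀ i Q, (i :: Q) <:+ P → ∀ j ∈ Q, need Q j = false →
      ∀ t t', co i t j t' = true)
    (v : List (ℕ × T)) (hv : v ∈ sweep dom U un co need P) :
    ∃ δ : ℕ → T, Sats dom un co δ P ∧ v = nodeOf need P δ := by
  induction P generalizing v with
  | nil =>
    refine ⟨fun _ => default, trivial, ?_⟩
    have hv' : v ∈ ([[]] : List (List (ℕ × T))) := hv
    rw [List.mem_singleton] at hv'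
    rw [hv']
    rfl
  | cons i P ih =>
    rw [List.nodup_cons] at hnd
    have hsuf : ∀ j Q, (j :: Q) <:+ P → (j :: Q) <:+ (i :: P) := fun j Q h =>
      h.trans (List.suffix_cons i P)
    have hv' : v ∈ sweepStep dom U un co need (i :: P) i (sweep dom U un co need P) := hv
    unfold sweepStep at hv'
    rw [List.mem_filter, List.any_eq_true] at hv'
    obtain ⟨-, u, hu, hv'⟩ := hv'
    rw [List.any_eq_true] at hv'
    obtain ⟨t, ht, hv'⟩ := hv'
    rw [Bool.and_eq_true, Bool.and_eq_true, List.all_eq_true, decide_eq_true_iff] at hv'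
    obtain ⟨hun, hco, hv'⟩ := hv'
    obtain ⟨δ, hδ, hu'⟩ := ih hnd.2 (fun j Q h => hmono j Q (hsuf j Q h))
      (fun j Q h => hneed j Q (hsuf j Q h)) u hu
    have hagree : ∀ j ∈ P, δ j = Function.update δ i t j := by
      intro j hj
      have : j ≠ i := fun h => hnd.1 (h ▸ hj)
      rw [Function.update_of_ne this]
    have hi : Function.update δ i t i = t := Function.update_self i t δ
    refine ⟨Function.update δ i t, ⟨?_, ?_, ?_, Sats_congr dom un co hagree hδ⟩, ?_⟩
    · rw [hi]
      exact ht
    · rw [hi]
      exact hun
    · intro j hj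
      rw [hi, ← hagree j hj]
      cases hn : need P j
      · exact hneed i P (List.suffix_refl _) j hj hn _ _
      · have : (j, δ j) ∈ u := by
          rw [hu']
          unfold nodeOf
          rw [List.mem_map]
          exact ⟨j, List.mem_filter.mpr ⟨hj, hn⟩, rfl⟩
        exact hco _ this
    · rw [← nodeOf_cons need (hmono i P (List.suffix_refl _)), hi,
        ← nodeOf_congr need hagree, ← hu', hv']

/-- Completeness. -/
theorem sweep_complete (P : List ℕ)
    (hmono : ∀ i Q, (i :: Q) <:+ P → ∀ j ∈ Q, need (i :: Q) j = true → need Q j = true)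
    (δ : ℕ → T) (hδ : Sats dom un co δ P)
    (hU : ∀ i Q, (i :: Q) <:+ P → nodeOf need (i :: Q) δ ∈ U) :
    nodeOf need P δ ∈ sweep dom U un co need P := by
  induction P with
  | nil => exact List.mem_singleton.mpr rfl
  | cons i P ih =>
    have hsuf : ∀ j Q, (j :: Q) <:+ P → (j :: Q) <:+ (i :: P) := fun j Q h =>
      h.trans (List.suffix_cons i P)
    obtain ⟨h1, h2, h3, h4⟩ := hδ
    have hrec := ih (fun j Q h => hmono j Q (hsuf j Q h)) h4 (fun j Q h => hU j Q (hsuf j Q h))
    change nodeOf need (i :: P) δ ∈
      sweepStep dom U un co need (i :: P) i (sweep dom U un co need P)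
    unfold sweepStep
    rw [List.mem_filter, List.any_eq_true]
    refine ⟨hU i P (List.suffix_refl _), _, hrec, ?_⟩
    rw [List.any_eq_true]
    refine ⟨δ i, h1, ?_⟩
    rw [Bool.and_eq_true, Bool.and_eq_true, List.all_eq_true, decide_eq_true_iff]
    refine ⟨h2, ?_, (nodeOf_cons need (hmono i P (List.suffix_refl _))).symm⟩
    intro x hx
    unfold nodeOf at hx
    rw [List.mem_map] at hx
    obtain ⟨j, hj, rfl⟩ := hx
    exact h3 j (List.mem_of_mem_filter hj)

end Pool.Agent.L5helper58.KS
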