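import Pool.Agent.L5helper58.KS.Sim
import Pool.Agent.L5helper58.KS.Sweep

/-!
# The algorithm and its correctness
-/

set_option autoImplicit false

namespace Pool.Agent.L5helper58.KS

/-! ### Lists -/

/-- All lists over `X` of length at most `n`. -/
def tups {α : Type} (X : List α) : ℕ → List (List α)
  | 0 => [[]]
  | n + 1 => [] :: (tups X n).flatMap (fun cs => X.map (fun c => c :: cs))

theorem mem_tups {α : Type} {X : List α} : ∀ {n : ℕ} {cs : List α},
    cs ∈ tups X n ↔ cs.length ≤ n ∧ ∀ c ∈ cs, c ∈ X
  | 0, cs => by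
    rw [tups, List.mem_singleton]
    constructor
    · rintro rfl
      simp
    · rintro ⟨h, _⟩
      exact List.length_eq_zero_iff.1 (by omega)
  | n + 1, cs => by
    rw [tups, List.mem_cons, List.mem_flatMap]
    constructor
    · rintro (rfl | ⟨ds, hds, hcs⟩)
      · simp
      · rw [mem_tups] at hds
        rw [List.mem_map] at hcs
        obtain ⟨c, hc, rfl⟩ := hcs
        refine ⟨by simpa using hds.1, fun d hd => ?_⟩
        rw [List.mem_cons] at hd
        rcases hd with rfl | hd
        · exact hc
        · exact hds.2 d hd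
    · rintro ⟨h1, h2⟩
      cases cs with
      | nil => exact Or.inl rfl
      | cons c cs =>
        refine Or.inr ⟨cs, mem_tups.2 ⟨by simpa using h1, fun d hd => h2 d (by simp [hd])⟩, ?_⟩
        rw [List.mem_map]
        exact ⟨c, h2 c (by simp), rfl⟩

theorem length_tups {α : Type} (X : List α) (n : ℕ) :
    (tups X n).length ≤ (X.length + 1) ^ n := by
  induction n with
  | zero => simp [tups]
  | succ n ih =>
    rw [tups, List.length_cons, List.length_flatMap]
    simp only [List.length_map, List.map_const', List.sum_replicate, smul_eq_mul]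
    have h1 : 1 ≤ (X.length + 1) ^ n := Nat.one_le_pow _ _ (by omega)
    rw [pow_succ]
    nlinarith [Nat.mul_le_mul_right X.length ih]

/-! ### The order of the sweep -/

/-- The times in the order of the sweep. -/
def order (D : List (Option Bool)) (s r : ℕ) : List ℕ :=
  (List.range (2 * D.length + s + 1)).flatMap (fun b =>
    (List.range D.length).filter (fun i => decide ((posN D i + r) / s = b)))

theorem order_pairwise (D : List (Option Bool)) (s r : ℕ) :
    (order D s r).Pairwise (Lt (posN D) s r) := by
  unfold order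
  rw [List.pairwise_flatMap]
  constructor
  · intro b _
    refine List.Pairwise.imp_of_mem ?_
      ((List.pairwise_lt_range (n := D.length)).filter (p := fun i => decide ((posN D i + r) / s = b)))
    intro i j hi hj hij
    rw [List.mem_filter, decide_eq_true_iff] at hi hj
    exact Or.inr ⟨hi.2.trans hj.2.symm, hij⟩
  · refine (List.pairwise_lt_range (n := 2 * D.length + s + 1)).imp ?_
    intro b b' hb i hi j hj
    rw [List.mem_filter, decide_eq_true_iff] at hi hj
    left
    unfold blk
    rw [hi.2, hj.2]
    exact hb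

theorem posN_le (D : List (Option Bool)) {i : ℕ} (hi : i ≤ D.length) :
    posN D i ≤ 2 * D.length := by
  unfold posN
  have := cnt_le D true hi
  omega

theorem mem_order {D : List (Option Bool)} {s r i : ℕ} (hr : r < s) :
    i ∈ order D s r ↔ i < D.length := by
  unfold order
  rw [List.mem_flatMap]
  constructor
  · rintro ⟨b, _, h⟩
    rw [List.mem_filter] at h
    exact List.mem_range.mp h.1
  · intro hi
    refine ⟨(posN D i + r) / s, List.mem_range.mpr ?_, List.mem_filter.mpr
      ⟨List.mem_range.mpr hi, by simp⟩⟩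
    have h1 := posN_le D hi.le
    have h2 := Nat.div_le_self (posN D i + r) s
    omega

theorem order_nodup (D : List (Option Bool)) (s r : ℕ) : (order D s r).Nodup :=
  (order_pairwise D s r).imp (fun h heq => by subst heq; exact lt_irrefl' h)

/-! ### The algorithm -/

/-- The pairs of a time and a transition. -/
def pairs (M : Machine) (m : ℕ) : List (ℕ × Trans) :=
  (List.range m).flatMap (fun i => M.1.map (fun t => (i, t)))

/-- The possible nodes of the sweep. -/
def nodes (M : Machine) (k m : ℕ) : List (List (ℕ × Trans)) :=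
  tups (pairs M m) (2 * (Nat.sqrt k + 1))

/-- The sweep for the directions `D` and the offset `r` succeeds. -/
def acceptB (M : Machine) (k : ℕ) (D : List (Option Bool)) (r : ℕ) : Bool :=
  !((order D (Nat.sqrt k + 1) r).foldl
    (foldF M.1 (nodes M k D.length) (unB M.2 D) (coB D) (needB D)) ([], [[]])).2.isEmpty

/-- The algorithm. -/
def algB (M : Machine) (k : ℕ) : Bool :=
  decide (0 ∈ M.2) || (tups [none, some false, some true] k).any (fun D =>
    !D.isEmpty && (List.range (Nat.sqrt k + 1)).any (fun r => acceptB M k D r))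

theorem acceptB_eq (M : Machine) (k : ℕ) (D : List (Option Bool)) (r : ℕ) :
    acceptB M k D r = !(sweep M.1 (nodes M k D.length) (unB M.2 D) (coB D) (needB D)
      (order D (Nat.sqrt k + 1) r).reverse).isEmpty := by
  unfold acceptB
  have h := foldl_sweep M.1 (nodes M k D.length) (unB M.2 D) (coB D) (needB D)
    (order D (Nat.sqrt k + 1) r) []
  have h0 : sweep M.1 (nodes M k D.length) (unB M.2 D) (coB D) (needB D) [] = [[]] := rfl
  rw [h0] at h
  rw [h, List.append_nil]

theorem Sats_iff {T : Type} (dom : List T) (un : ℕ → T → Bool) (co : ℕ → T → ℕ → T → Bool)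
    (δ : ℕ → T) (P : List ℕ) : Sats dom un co δ P ↔
      (∀ i ∈ P, δ i ∈ dom ∧ un i (δ i) = true) ∧
        P.Pairwise (fun i j => co i (δ i) j (δ j) = true) := by
  induction P with
  | nil => simp [Sats]
  | cons i P ih =>
    rw [List.pairwise_cons, List.forall_mem_cons]
    change (δ i ∈ dom ∧ un i (δ i) = true ∧ (∀ j ∈ P, co i (δ i) j (δ j) = true) ∧
      Sats dom un co δ P) ↔ _
    rw [ih]
    tauto

theorem coB_lt {D : List (Option Bool)} {i j : ℕ} (t t' : Trans) (h : i < j) :
    coB D i t j t' = c0B D i t j t' := by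
  unfold coB
  rw [decide_eq_true h]
  rfl

theorem coB_gt {D : List (Option Bool)} {i j : ℕ} (t t' : Trans) (h : i < j) :
    coB D j t' i t = c0B D i t j t' := by
  unfold coB
  rw [decide_eq_false (by omega)]
  rfl

theorem coB_symm (D : List (Option Bool)) (δ : ℕ → Trans) :
    Std.Symm (fun i j => coB D i (δ i) j (δ j) = true) := by
  refine ⟨fun i j h => ?_⟩
  rcases lt_trichotomy i j with hij | hij | hij
  · rw [coB_lt _ _ hij] at h
    rw [coB_gt _ _ hij]
    exact h
  · subst hij
    exact h
  · rw [coB_gt _ _ hij] at h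
    rw [coB_lt _ _ hij]
    exact h

theorem need_mono {D : List (Option Bool)} {Q : List ℕ} {i j : ℕ}
    (h : needB D (i :: Q) j = true) : needB D Q j = true := by
  unfold needB at h ⊢
  rw [List.any_eq_true] at h ⊢
  obtain ⟨l, hl, h⟩ := h
  rw [Bool.and_eq_true, Bool.not_eq_true', decide_eq_false_iff_not] at h
  refine ⟨l, hl, ?_⟩
  rw [Bool.and_eq_true, Bool.not_eq_true', decide_eq_false_iff_not]
  exact ⟨fun h' => h.1 (List.mem_cons_of_mem _ h'), h.2⟩

theorem co_of_not_need {D : List (Option Bool)} {Q : List ℕ} {i j : ℕ} (hi : i < D.length)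
    (hiQ : i ∉ Q) (hjQ : j ∈ Q) (h : needB D Q j = false) (t t' : Trans) :
    coB D i t j t' = true := by
  have hrel : relB D j i = false := by
    by_contra hr
    rw [Bool.not_eq_false] at hr
    have : needB D Q j = true := by
      unfold needB
      rw [List.any_eq_true]
      refine ⟨i, List.mem_range.mpr hi, ?_⟩
      rw [Bool.and_eq_true, Bool.not_eq_true', decide_eq_false_iff_not]
      exact ⟨hiQ, hr⟩
    rw [h] at this
    exact absurd this (by decide)
  unfold relB at hrel
  rw [Bool.or_eq_false_iff, Bool.or_eq_false_iff, Bool.or_eq_false_iff, decide_eq_false_iff_not,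
    decide_eq_false_iff_not] at hrel
  obtain ⟨⟨h1, h2⟩, h3, h4⟩ := hrel
  have hne : i ≠ j := fun h' => hiQ (h' ▸ hjQ)
  rcases lt_or_gt_of_ne hne with hij | hij
  · rw [coB_lt _ _ hij]
    unfold c0B
    rw [decide_eq_false h2, h4]
    rfl
  · rw [coB_gt _ _ hij]
    unfold c0B
    rw [decide_eq_false h1, h3]
    rfl

theorem sound {M : Machine} {k : ℕ} {D : List (Option Bool)} {r : ℕ}
    (hr : r < Nat.sqrt k + 1) (h : acceptB M k D r = true) : ∃ δ, Good M D δ := by
  rw [acceptB_eq, Bool.not_eq_true', List.isEmpty_eq_false_iff] at h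
  obtain ⟨v, hv⟩ := List.exists_mem_of_ne_nil _ h
  have hmem : ∀ i, i ∈ (order D (Nat.sqrt k + 1) r).reverse ↔ i < D.length := fun i => by
    rw [List.mem_reverse, mem_order hr]
  have hnd : ((order D (Nat.sqrt k + 1) r).reverse).Nodup :=
    List.nodup_reverse.mpr (order_nodup D _ r)
  obtain ⟨δ, hδ, -⟩ := sweep_sound M.1 (nodes M k D.length) (unB M.2 D) (coB D) (needB D) _ hnd
    (fun i Q _ j _ hj => need_mono hj)
    (fun i Q hQ j hj hjn t t' => by
      have hi : i ∈ (order D (Nat.sqrt k + 1) r).reverse := hQ.subset (by simp)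
      have hnd' := (hQ.sublist.nodup hnd)
      rw [List.nodup_cons] at hnd'
      exact co_of_not_need ((hmem i).mp hi) hnd'.1 hj hjn t t') v hv
  rw [Sats_iff] at hδ
  refine ⟨δ, fun i hi => hδ.1 i ((hmem i).mpr hi), fun i j hij hj => ?_⟩
  have := coB_symm D δ
  have := hδ.2.forall ((hmem i).mpr (by omega)) ((hmem j).mpr hj) (by omega)
  rwa [coB_lt _ _ hij] at this

theorem complete {M : Machine} {k : ℕ} {D : List (Option Bool)} (hk : D.length ≤ k)
    {δ : ℕ → Trans} (hg : Good M D δ) : ∃ r < Nat.sqrt k + 1, acceptB M k D r = true := by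
  classical
  obtain ⟨s, hs⟩ : ∃ s, s = Nat.sqrt k + 1 := ⟨_, rfl⟩
  have hs0 : 0 < s := by omega
  obtain ⟨r, hr, hcross⟩ := exists_offset (P := posN D) (m := D.length) hs0
    (fun i hi => (posN_step D hi).1) (fun i hi => (posN_step D hi).2)
  refine ⟨r, hs ▸ hr, ?_⟩
  rw [acceptB_eq, Bool.not_eq_true', List.isEmpty_eq_false_iff, ← hs]
  have hmem : ∀ i, i ∈ (order D s r).reverse ↔ i < D.length := fun i => by
    rw [List.mem_reverse, mem_order hr]
  have hnd : ((order D s r).reverse).Nodup := List.nodup_reverse.mpr (order_nodup D _ r)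
  have hms : D.length / s ≤ s - 1 := by
    have h1 : D.length < s * s := by
      have := Nat.lt_succ_sqrt k
      rw [Nat.succ_eq_add_one, ← hs] at this
      omega
    have h2 : D.length / s < s := Nat.div_lt_of_lt_mul h1
    omega
  refine List.ne_nil_of_mem (sweep_complete M.1 (nodes M k D.length) (unB M.2 D) (coB D)
    (needB D) _ (fun i Q _ j _ hj => need_mono hj) δ ?_ ?_)
  · rw [Sats_iff]
    refine ⟨fun i hi => hg.1 i ((hmem i).mp hi), ?_⟩
    refine List.Pairwise.imp_of_mem ?_ hnd
    intro i j hi hj hij
    rcases lt_or_gt_of_ne hij with h | h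
    · rw [coB_lt _ _ h]
      exact hg.2 i j h ((hmem j).mp hj)
    · rw [coB_gt _ _ h]
      exact hg.2 j i h ((hmem i).mp hi)
  · intro i Q hQ
    obtain ⟨rest, hrest⟩ := hQ
    -- the order is the reverse of `i :: Q` followed by the reverse of `rest`
    have hord : order D s r = (i :: Q).reverse ++ rest.reverse := by
      rw [← List.reverse_append, hrest, List.reverse_reverse]
    have hpw := order_pairwise D s r
    rw [hord, List.pairwise_append] at hpw
    have hndQ : (i :: Q).Nodup := by
      have h1 := hnd
      rw [← hrest] at h1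
      exact (List.nodup_append.mp h1).2.1
    have hsub : ∀ j ∈ (i :: Q), j < D.length := by
      intro j hj
      refine (hmem j).mp ?_
      rw [← hrest]
      exact List.mem_append_right _ hj
    unfold nodes
    rw [mem_tups]
    constructor
    · unfold nodeOf
      rw [List.length_map, ← List.toFinset_card_of_nodup (hndQ.filter _)]
      have hfr := frontier (P := posN D) (m := D.length) (s := s) (r := r) hs0
        (i :: Q).toFinset ((Finset.range D.length) \ (i :: Q).toFinset)
        (fun j hj => hsub j (List.mem_toFinset.mp hj))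
        (fun j hj => Finset.mem_range.mp (Finset.mem_sdiff.mp hj).1)
        (fun a ha b hb => by
          rw [List.mem_toFinset] at ha
          rw [Finset.mem_sdiff, List.mem_toFinset, Finset.mem_range] at hb
          refine hpw.2.2 a (List.mem_reverse.mpr ha) b ?_
          rw [List.mem_reverse]
          have h1 : b ∈ (order D s r).reverse := (hmem b).mpr hb.1
          rw [← hrest, List.mem_append] at h1
          rcases h1 with h1 | h1
          · exact h1
          · exact absurd h1 hb.2)
      refine le_trans (le_trans (Finset.card_le_card ?_) hfr) ?_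
      · intro j hj
        rw [List.mem_toFinset, List.mem_filter] at hj
        rw [Finset.mem_filter, List.mem_toFinset]
        refine ⟨hj.1, ?_⟩
        have h1 := hj.2
        unfold needB at h1
        rw [List.any_eq_true] at h1
        obtain ⟨l, hl, h1⟩ := h1
        rw [Bool.and_eq_true, Bool.not_eq_true', decide_eq_false_iff_not] at h1
        have hl' := List.mem_range.mp hl
        refine ⟨l, ?_, (relB_iff (hsub j hj.1) hl').mp h1.2⟩
        rw [Finset.mem_sdiff, Finset.mem_range, List.mem_toFinset]
        exact ⟨hl', h1.1⟩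
      · omega
    · intro c hc
      unfold nodeOf at hc
      rw [List.mem_map] at hc
      obtain ⟨j, hj, rfl⟩ := hc
      have hj' := hsub j (List.mem_of_mem_filter hj)
      unfold pairs
      rw [List.mem_flatMap]
      refine ⟨j, List.mem_range.mpr hj', ?_⟩
      rw [List.mem_map]
      exact ⟨δ j, (hg.1 j hj').1, rfl⟩

theorem algB_iff (M : Machine) (k : ℕ) : algB M k = true ↔ Halts M k := by
  rw [halts_iff_good]
  unfold algB
  rw [Bool.or_eq_true, decide_eq_true_iff, List.any_eq_true]
  refine or_congr Iff.rfl ?_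
  constructor
  · rintro ⟨D, hD, h⟩
    rw [mem_tups] at hD
    rw [Bool.and_eq_true, Bool.not_eq_true', List.isEmpty_eq_false_iff, List.any_eq_true] at h
    obtain ⟨h0, r, hr, h⟩ := h
    exact ⟨D, h0, hD.1, sound (List.mem_range.mp hr) h⟩
  · rintro ⟨D, h0, hk, δ, hg⟩
    obtain ⟨r, hr, h⟩ := complete hk hg
    refine ⟨D, ?_, ?_⟩
    · rw [mem_tups]
      refine ⟨hk, fun c _ => ?_⟩
      rcases c with _ | _ | _ <;> simp
    · rw [Bool.and_eq_true, Bool.not_eq_true', List.isEmpty_eq_false_iff, List.any_eq_true]
      exact ⟨h0, r, List.mem_range.mpr hr, h⟩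

end Pool.Agent.L5helper58.KS
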