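import Pool.Agent.L5helper58.KS.Defs

/-!
# Machines given by a table of bits
-/

set_option autoImplicit false

namespace Pool.Agent.L5helper58.KS

/-- The places of the table of a machine with `n` states and `n` symbols: one for each possible
transition. -/
abbrev Tab (n : ℕ) : Type := Fin n × Fin n × Fin n × Fin n × Option Bool

/-- The transition at a place of the table. -/
def code {n : ℕ} (e : Tab n) : Trans :=
  (e.1.val, e.2.1.val, e.2.2.1.val, e.2.2.2.1.val, e.2.2.2.2)

/-- The machine with the table `x`: its transitions are those with the bit `true`; the start state is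
`0`, the blank is `0`, the halting state is `1`. -/
noncomputable def machineOf {n : ℕ} (x : Tab n → Bool) : Machine :=
  ((Finset.univ.filter (fun e => x e = true)).toList.map code, [1])

theorem mem_machineOf {n : ℕ} (x : Tab n → Bool) (t : Trans) :
    t ∈ (machineOf x).1 ↔ ∃ e, x e = true ∧ code e = t := by
  unfold machineOf
  simp

theorem code_injective {n : ℕ} : Function.Injective (code : Tab n → Trans) := by
  rintro ⟨a, b, c, d, e⟩ ⟨a', b', c', d', e'⟩ h
  simp only [code, Prod.mk.injEq] at h ⊢
  exact ⟨Fin.ext h.1, Fin.ext h.2.1, Fin.ext h.2.2.1, Fin.ext h.2.2.2.1, h.2.2.2.2⟩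

end Pool.Agent.L5helper58.KS
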