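import Pool.Agent.L5helper58.KS.Algo
import Pool.Agent.L5helper58.KS.Tab
import Pool.Agent.H520R2.NMDefs

/-!
# Monotone circuits for the halting problem
-/

set_option autoImplicit false

namespace Pool.Agent.L5helper58.KS

open Pool.Agent.H520R2.NM

instance instDecNode2 : DecidableEq (List (ℕ × Trans)) :=
  @instDecidableEqList _ (@instDecidableEqProd _ _ _ (inferInstance : DecidableEq Trans))

/-! ### Building monotone circuits -/

section Build

variable {ι : Type}

/-- Some wire of the circuit computes `f`. -/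
def Has {N : ℕ} (C : Circuit ι N) (f : (ι → Bool) → Bool) : Prop :=
  ∃ w : Wire ι N, ∀ x, w.eval x (C.vals x) = f x

/-- Some circuit of AND and OR gates of size at most `s` computes all functions in `F`. -/
def Build (F : Set ((ι → Bool) → Bool)) (s : ℕ) : Prop :=
  ∃ (N : ℕ) (C : Circuit ι N), C.fanins = [] ∧ C.size ≤ s ∧ ∀ f ∈ F, Has C f

/-- Wires of the smaller circuit in the larger one. -/
def castW {N : ℕ} : Wire ι N → Wire ι (N + 1)
  | .input i => .input i
  | .const b => .const b
  | .gate j => .gate j.castSucc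

theorem castW_eval {N : ℕ} (w : Wire ι N) (x : ι → Bool) (v : Fin N → Bool) (b : Bool) :
    (castW w).eval x (Fin.snoc (α := fun _ => Bool) v b) = w.eval x v := by
  cases w with
  | input i => rfl
  | const b => rfl
  | gate j =>
    simp only [castW, Wire.eval]
    exact Fin.snoc_castSucc _ _ _

theorem Build.base (F : Set ((ι → Bool) → Bool))
    (hF : ∀ f ∈ F, (∃ i, f = fun x => x i) ∨ ∃ b, f = fun _ => b) : Build F 0 := by
  refine ⟨0, .empty, rfl, le_rfl, fun f hf => ?_⟩
  rcases hF f hf with ⟨i, rfl⟩ | ⟨b, rfl⟩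
  · exact ⟨.input i, fun _ => rfl⟩
  · exact ⟨.const b, fun _ => rfl⟩

theorem Build.mono {F F' : Set ((ι → Bool) → Bool)} {s s' : ℕ} (h : Build F s) (hF : F' ⊆ F)
    (hs : s ≤ s') : Build F' s' := by
  obtain ⟨N, C, h1, h2, h3⟩ := h
  exact ⟨N, C, h1, h2.trans hs, fun f hf => h3 f (hF hf)⟩

theorem Build.const {F : Set ((ι → Bool) → Bool)} {s : ℕ} (h : Build F s) (b : Bool) :
    Build (insert (fun _ => b) F) s := by
  obtain ⟨N, C, h1, h2, h3⟩ := h
  refine ⟨N, C, h1, h2, fun f hf => ?_⟩
  rcases hf with rfl | hf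
  · exact ⟨.const b, fun _ => rfl⟩
  · exact h3 f hf

theorem Build.input {F : Set ((ι → Bool) → Bool)} {s : ℕ} (h : Build F s) (i : ι) :
    Build (insert (fun x => x i) F) s := by
  obtain ⟨N, C, h1, h2, h3⟩ := h
  refine ⟨N, C, h1, h2, fun f hf => ?_⟩
  rcases hf with rfl | hf
  · exact ⟨.input i, fun _ => rfl⟩
  · exact h3 f hf

theorem Build.and {F : Set ((ι → Bool) → Bool)} {s : ℕ} (h : Build F s)
    {f g : (ι → Bool) → Bool} (hf : f ∈ F) (hg : g ∈ F) :
    Build (insert (fun x => f x && g x) F) (s + 1) := by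
  obtain ⟨N, C, h1, h2, h3⟩ := h
  obtain ⟨a, ha⟩ := h3 f hf
  obtain ⟨b, hb⟩ := h3 g hg
  refine ⟨N + 1, .and C a b, h1, Nat.succ_le_succ h2, fun e he => ?_⟩
  rcases he with rfl | he
  · refine ⟨.gate (Fin.last N), fun x => ?_⟩
    change Fin.snoc (α := fun _ => Bool) (C.vals x)
      (a.eval x (C.vals x) && b.eval x (C.vals x)) (Fin.last N) = _
    rw [Fin.snoc_last, ha, hb]
  · obtain ⟨w, hw⟩ := h3 e he
    refine ⟨castW w, fun x => ?_⟩
    simp only [Circuit.vals]
    rw [castW_eval, hw]

theorem Build.or {F : Set ((ι → Bool) → Bool)} {s : ℕ} (h : Build F s)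
    {f g : (ι → Bool) → Bool} (hf : f ∈ F) (hg : g ∈ F) :
    Build (insert (fun x => f x || g x) F) (s + 1) := by
  obtain ⟨N, C, h1, h2, h3⟩ := h
  obtain ⟨a, ha⟩ := h3 f hf
  obtain ⟨b, hb⟩ := h3 g hg
  refine ⟨N + 1, .or C a b, h1, Nat.succ_le_succ h2, fun e he => ?_⟩
  rcases he with rfl | he
  · refine ⟨.gate (Fin.last N), fun x => ?_⟩
    change Fin.snoc (α := fun _ => Bool) (C.vals x)
      (a.eval x (C.vals x) || b.eval x (C.vals x)) (Fin.last N) = _
    rw [Fin.snoc_last, ha, hb]
  · obtain ⟨w, hw⟩ := h3 e he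
    refine ⟨castW w, fun x => ?_⟩
    simp only [Circuit.vals]
    rw [castW_eval, hw]

/-- A disjunction of conjunctions of two functions. -/
def anyF (L : List (((ι → Bool) → Bool) × ((ι → Bool) → Bool))) (x : ι → Bool) : Bool :=
  L.any (fun p => p.1 x && p.2 x)

theorem Build.any {F : Set ((ι → Bool) → Bool)} {s : ℕ} (h : Build F s)
    (L : List (((ι → Bool) → Bool) × ((ι → Bool) → Bool)))
    (hL : ∀ p ∈ L, p.1 ∈ F ∧ p.2 ∈ F) : Build (insert (anyF L) F) (s + 2 * L.length) := by
  induction L with
  | nil =>
    have h1 := h.const false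
    exact h1
  | cons p L ih =>
    have h1 := ih (fun q hq => hL q (List.mem_cons_of_mem _ hq))
    have hp := hL p (by simp)
    have h2 := h1.and (Set.mem_insert_of_mem _ hp.1) (Set.mem_insert_of_mem _ hp.2)
    have h3 := h2.or (Set.mem_insert _ _) (Set.mem_insert_of_mem _ (Set.mem_insert _ _))
    refine h3.mono ?_ (by rw [List.length_cons]; omega)
    intro f hf
    rcases hf with rfl | hf
    · refine Or.inl ?_
      funext x
      simp [anyF]
    · exact Or.inr (Or.inr (Or.inr hf))

/-- A layer of disjunctions of conjunctions. -/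
theorem Build.layer {F : Set ((ι → Bool) → Bool)} {s R : ℕ} (h : Build F s)
    (J : List (List (((ι → Bool) → Bool) × ((ι → Bool) → Bool))))
    (hJ : ∀ L ∈ J, L.length ≤ R ∧ ∀ p ∈ L, p.1 ∈ F ∧ p.2 ∈ F) :
    Build ({f | ∃ L ∈ J, f = anyF L} ∪ F) (s + J.length * (2 * R)) := by
  induction J with
  | nil =>
    refine h.mono ?_ (by omega)
    rintro f (⟨L, hL, -⟩ | hf)
    · exact absurd hL (by simp)
    · exact hf
  | cons L J ih =>
    have h1 := ih (fun L' hL' => hJ L' (List.mem_cons_of_mem _ hL'))
    obtain ⟨hlen, hp⟩ := hJ L (by simp)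
    have h2 := h1.any L (fun p hp' => ⟨Or.inr (hp p hp').1, Or.inr (hp p hp').2⟩)
    refine h2.mono ?_ ?_
    · rintro f (⟨L', hL', rfl⟩ | hf)
      · rcases List.mem_cons.mp hL' with rfl | hL'
        · exact Or.inl rfl
        · exact Or.inr (Or.inl ⟨L', hL', rfl⟩)
      · exact Or.inr (Or.inr hf)
    · rw [List.length_cons]
      have : (J.length + 1) * (2 * R) = J.length * (2 * R) + 2 * R := by ring
      omega

end Build

/-! ### The sweep as a circuit -/

section Sweep

variable {n : ℕ} (U : List (List (ℕ × Trans))) (un : ℕ → Trans → Bool)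
  (co : ℕ → Trans → ℕ → Trans → Bool) (need : List ℕ → ℕ → Bool)

/-- The function that says whether `v` is reached by the sweep. -/
noncomputable def swF (P : List ℕ) (v : List (ℕ × Trans)) (x : Tab n → Bool) : Bool :=
  decide (v ∈ sweep (machineOf x).1 U un co need P)

/-- The places of the table. -/
noncomputable def places (n : ℕ) : List (Tab n) := Finset.univ.toList

theorem length_places (n : ℕ) : (places n).length = 3 * n ^ 4 := by
  unfold places
  rw [Finset.length_toList, Finset.card_univ]
  simp
  ring

theorem sweep_subset (dom : List Trans) (hU : [] ∈ U) (P : List ℕ) :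
    ∀ v ∈ sweep dom U un co need P, v ∈ U := by
  cases P with
  | nil =>
    intro v hv
    have hv' : v ∈ ([[]] : List (List (ℕ × Trans))) := hv
    rw [List.mem_singleton] at hv'
    rw [hv']
    exact hU
  | cons i P =>
    intro v hv
    exact List.mem_of_mem_filter hv

/-- The static test. -/
def test (P : List ℕ) (i : ℕ) (v : List (ℕ × Trans)) (p : List (ℕ × Trans) × Tab n) : Bool :=
  un i (code p.2) && (p.1.all (fun x => co i (code p.2) x.1 x.2) &&
    decide (v = ((i, code p.2) :: p.1).filter (fun x => need P x.1)))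

open Classical in
/-- The disjunction that computes one function of the next layer. -/
noncomputable def disj (P : List ℕ) (i : ℕ) (v : List (ℕ × Trans)) :
    List (((Tab n → Bool) → Bool) × ((Tab n → Bool) → Bool)) :=
  ((U ×ˢ places n).filter (test un co need (i :: P) i v)).map
    (fun p => (swF U un co need P p.1, fun x => x p.2))

theorem swF_cons (hU : [] ∈ U) (P : List ℕ) (i : ℕ) (v : List (ℕ × Trans)) (hv : v ∈ U) :
    (swF U un co need (i :: P) v : (Tab n → Bool) → Bool) = anyF (disj U un co need P i v) := by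
  funext x
  rw [Bool.eq_iff_iff]
  unfold swF anyF disj
  rw [decide_eq_true_iff, List.any_map, List.any_eq_true]
  change v ∈ sweepStep (machineOf x).1 U un co need (i :: P) i
    (sweep (machineOf x).1 U un co need P) ↔ _
  unfold sweepStep
  rw [List.mem_filter, List.any_eq_true]
  constructor
  · rintro ⟨-, u, hu, h⟩
    rw [List.any_eq_true] at h
    obtain ⟨t, ht, h⟩ := h
    rw [mem_machineOf] at ht
    obtain ⟨e, he, rfl⟩ := ht
    refine ⟨(u, e), ?_, ?_⟩
    · rw [List.mem_filter]
      refine ⟨?_, h⟩
      rw [List.mem_product]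
      exact ⟨sweep_subset U un co need _ hU P u hu, by simp [places]⟩
    · simp only [Function.comp, swF]
      rw [Bool.and_eq_true, decide_eq_true_iff]
      exact ⟨hu, he⟩
  · rintro ⟨⟨u, e⟩, hp, h⟩
    rw [List.mem_filter] at hp
    simp only [Function.comp, swF] at h
    rw [Bool.and_eq_true, decide_eq_true_iff] at h
    refine ⟨hv, u, h.1, ?_⟩
    rw [List.any_eq_true]
    exact ⟨code e, (mem_machineOf x _).mpr ⟨e, h.2, rfl⟩, hp.2⟩

theorem build_sweep (hU : [] ∈ U) (F : Set ((Tab n → Bool) → Bool)) (s : ℕ) (h : Build F s)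
    (P : List ℕ) :
    Build ({f | ∃ v ∈ U, f = swF U un co need P v} ∪ F)
      (s + P.length * (U.length * (2 * (U.length * (3 * n ^ 4))))) := by
  classical
  induction P with
  | nil =>
    have key : ∀ (V : List (List (ℕ × Trans))),
        Build ({f | ∃ v ∈ V, f = (swF U un co need [] v : (Tab n → Bool) → Bool)} ∪ F) s := by
      intro V
      induction V with
      | nil =>
        refine h.mono ?_ le_rfl
        rintro f (⟨v, hv, -⟩ | hf)
        · exact absurd hv (by simp)
        · exact hf
      | cons v V ih =>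
        have h1 := ih.const (decide (v ∈ ([[]] : List (List (ℕ × Trans)))))
        refine h1.mono ?_ le_rfl
        rintro f (⟨v', hv', rfl⟩ | hf)
        · rcases List.mem_cons.mp hv' with rfl | hv'
          · refine Or.inl ?_
            funext x
            unfold swF
            congr 1
          · exact Or.inr (Or.inl ⟨v', hv', rfl⟩)
        · exact Or.inr (Or.inr hf)
    exact (key U).mono (fun _ h => h) (by simp)
  | cons i P ih =>
    -- add the inputs
    have hin : ∀ V : List (Tab n), Build ({f | ∃ e ∈ V, f = (fun x : Tab n → Bool => x e)} ∪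
        ({f | ∃ v ∈ U, f = swF U un co need P v} ∪ F))
        (s + P.length * (U.length * (2 * (U.length * (3 * n ^ 4))))) := by
      intro V
      induction V with
      | nil =>
        refine ih.mono ?_ le_rfl
        rintro f (⟨v, hv, -⟩ | hf)
        · exact absurd hv (by simp)
        · exact hf
      | cons e V ih' =>
        refine (ih'.input e).mono ?_ le_rfl
        rintro f (⟨e', he', rfl⟩ | hf)
        · rcases List.mem_cons.mp he' with rfl | he'
          · exact Or.inl rfl
          · exact Or.inr (Or.inl ⟨e', he', rfl⟩)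
        · exact Or.inr (Or.inr hf)
    have h1 := (hin (places n)).layer (R := U.length * (3 * n ^ 4))
      (U.map (fun v => disj U un co need P i v)) (by
        intro L hL
        rw [List.mem_map] at hL
        obtain ⟨v, -, rfl⟩ := hL
        unfold disj
        constructor
        · rw [List.length_map]
          refine (List.length_filter_le _ _).trans ?_
          rw [List.length_product, length_places]
        · intro p hp
          rw [List.mem_map] at hp
          obtain ⟨q, hq, rfl⟩ := hp
          have hq' := List.mem_of_mem_filter hq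
          rw [List.mem_product] at hq'
          exact ⟨Or.inr (Or.inl ⟨q.1, hq'.1, rfl⟩), Or.inl ⟨q.2, hq'.2, rfl⟩⟩)
    refine h1.mono ?_ ?_
    · rintro f (⟨v, hv, rfl⟩ | hf)
      · refine Or.inl ⟨_, List.mem_map.mpr ⟨v, hv, rfl⟩, ?_⟩
        exact swF_cons U un co need hU P i v hv
      · exact Or.inr (Or.inr (Or.inr hf))
    · rw [List.length_map, List.length_cons]
      have : (P.length + 1) * (U.length * (2 * (U.length * (3 * n ^ 4)))) =
          P.length * (U.length * (2 * (U.length * (3 * n ^ 4)))) +
            U.length * (2 * (U.length * (3 * n ^ 4))) := by ring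
      omega

end Sweep

end Pool.Agent.L5helper58.KS
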