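import Pool.Agent.L5helper58.KS.Algo
import Pool.Agent.H628R2.FPTW

/-!
# The algorithm runs in polynomial time on padded inputs
-/

set_option autoImplicit false

namespace Pool.Agent.L5helper58.KS

open Pool.Agent.NPC

instance instDecNode : DecidableEq (List (ℕ × Trans)) :=
  @instDecidableEqList _ (@instDecidableEqProd _ _ _ (inferInstance : DecidableEq Trans))

variable {α β : Type} [TEnc α] [TEnc β]

/-! ### General lists -/

theorem poly_tups {X : α → List β} {n : α → ℕ} (hX : Poly X) (hn : UPoly n) (q : Polynomial ℕ)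
    (hq : ∀ a, ((X a).length + 1) ^ (n a) ≤ q.eval (sz a)) :
    NPC.Poly (fun a => tups (X a) (n a)) := by
  obtain ⟨r, hr⟩ := hX.sz_le
  obtain ⟨u, hu⟩ := hn.sz_le
  have hF : NPC.Poly (fun p : α × List (List β) =>
      ([] : List β) :: p.2.flatMap (fun cs => (X p.1).map (fun c => c :: cs))) := by
    refine Poly.cons (NPC.Poly.const []) ?_
    refine Poly.flatMap (F := fun (p : α × List (List β)) cs => (X p.1).map (fun c => c :: cs))
      (Poly.snd Poly.id) ?_
    refine NPC.Poly.map (F := fun (p : (α × List (List β)) × List β) c => c :: p.2)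
      (hX.comp (Poly.fst (Poly.fst Poly.id))) ?_
    exact Poly.cons (Poly.snd Poly.id) (Poly.snd (Poly.fst Poly.id))
  have key : ∀ (Y : List β) (k : ℕ), (fun T : List (List β) =>
      ([] : List β) :: T.flatMap (fun cs => Y.map (fun c => c :: cs)))^[k] [[]] = tups Y k := by
    intro Y k
    induction k with
    | zero => rfl
    | succ k ih => rw [Function.iterate_succ_apply', ih, tups]
  refine (Poly.iterLen (l := fun a => List.replicate (n a) ()) (s := fun _ => [[]])
    (F := fun a T => ([] : List β) :: T.flatMap (fun cs => (X a).map (fun c => c :: cs)))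
    hn (NPC.Poly.const _) hF (q * (u * (r + Polynomial.C 1) + Polynomial.C 2) + Polynomial.C 1)
      ?_).congr ?_
  · intro a k hk
    rw [key]
    rw [List.length_replicate] at hk
    have hlen : (tups (X a) k).length ≤ q.eval (sz a) := by
      refine (length_tups _ _).trans (le_trans ?_ (hq a))
      exact Nat.pow_le_pow_right (by omega) hk
    have hna : n a ≤ u.eval (sz a) := by
      have h1 := hu a
      rw [sz_replicate_unit] at h1
      omega
    have hel : ∀ cs ∈ tups (X a) k, sz cs ≤ u.eval (sz a) * (r.eval (sz a) + 1) + 1 := by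
      intro cs hcs
      rw [mem_tups] at hcs
      refine (sz_le_length_mul cs (r.eval (sz a)) fun c hc => ?_).trans ?_
      · exact (sz_le_of_mem (hcs.2 c hc)).le.trans (hr a)
      · exact Nat.add_le_add_right (Nat.mul_le_mul_right _ (by omega)) 1
    have h1 := sz_le_length_mul (tups (X a) k) _ hel
    refine h1.trans ?_
    simp only [Polynomial.eval_add, Polynomial.eval_mul, Polynomial.eval_C]
    exact Nat.add_le_add_right (Nat.mul_le_mul_right _ hlen) 1
  · intro a
    rw [List.length_replicate, key]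

/-! ### Positions and constraints -/

theorem poly_cnt {D : α → List (Option Bool)} {i : α → ℕ} (hD : Poly D) (b : Bool)
    (hi : Poly i) : NPC.Poly (fun a => cnt (D a) b (i a)) := by
  unfold cnt
  refine Poly.length (Poly.filter
    (p := fun a j => decide (j < i a) && decide ((D a).getD j none = some b))
    (UPoly.range (UPoly.length hD)) (Poly.and ?_ ?_))
  · exact Poly.decide_lt (Poly.snd Poly.id) (hi.comp (Poly.fst Poly.id))
  · exact Poly.decide_eq (Poly.getD (hD.comp (Poly.fst Poly.id)) (Poly.snd Poly.id)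
      (NPC.Poly.const none)) (NPC.Poly.const (some b))

theorem poly_posN {D : α → List (Option Bool)} {i : α → ℕ} (hD : Poly D) (hi : Poly i) :
    NPC.Poly (fun a => posN (D a) (i a)) := by
  unfold posN
  exact Poly.sub (Poly.add (Poly.length hD) (poly_cnt hD true hi)) (poly_cnt hD false hi)

theorem poly_consB {D : α → List (Option Bool)} {i j : α → ℕ} (hD : Poly D) (hi : Poly i)
    (hj : Poly j) : NPC.Poly (fun a => consB (D a) (i a) (j a)) := by
  unfold consB
  refine Poly.and (Poly.and (Poly.decide_lt hi hj)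
    (Poly.decide_eq (poly_posN hD hi) (poly_posN hD hj))) ?_
  refine Poly.all (p := fun a l => !((decide (i a < l) && decide (l < j a)) &&
    decide (posN (D a) l = posN (D a) (i a)))) (UPoly.range (UPoly.length hD)) ?_
  have hD' := hD.comp (Poly.fst (Poly.id (α := α × ℕ)))
  have hi' := hi.comp (Poly.fst (Poly.id (α := α × ℕ)))
  have hj' := hj.comp (Poly.fst (Poly.id (α := α × ℕ)))
  exact Poly.not (Poly.and (Poly.and (Poly.decide_lt hi' (Poly.snd Poly.id))
    (Poly.decide_lt (Poly.snd Poly.id) hj'))
    (Poly.decide_eq (poly_posN hD' (Poly.snd Poly.id)) (poly_posN hD' hi')))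

theorem poly_relB {D : α → List (Option Bool)} {i j : α → ℕ} (hD : Poly D) (hi : Poly i)
    (hj : Poly j) : NPC.Poly (fun a => relB (D a) (i a) (j a)) := by
  unfold relB
  exact Poly.or (Poly.or (Poly.decide_eq hj (Poly.succ hi)) (Poly.decide_eq hi (Poly.succ hj)))
    (Poly.or (poly_consB hD hi hj) (poly_consB hD hj hi))

theorem poly_unB {H : α → List ℕ} {D : α → List (Option Bool)} {i : α → ℕ} {t : α → Trans}
    (hH : Poly H) (hD : Poly D) (hi : Poly i) (ht : Poly t) :
    NPC.Poly (fun a => unB (H a) (D a) (i a) (t a)) := by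
  unfold unB
  have t1 : NPC.Poly (fun a => (t a).1) := Poly.fst ht
  have t2 : NPC.Poly (fun a => (t a).2.1) := Poly.fst (Poly.snd ht)
  have t3 : NPC.Poly (fun a => (t a).2.2.1) := Poly.fst (Poly.snd (Poly.snd ht))
  have t5 : NPC.Poly (fun a => (t a).2.2.2.2) := Poly.snd (Poly.snd (Poly.snd (Poly.snd ht)))
  have hD' := hD.comp (Poly.fst (Poly.id (α := α × ℕ)))
  have hi' := hi.comp (Poly.fst (Poly.id (α := α × ℕ)))
  refine Poly.and (Poly.and (Poly.decide_eq t5 (Poly.getD hD hi (NPC.Poly.const none)))
    (Poly.or (Poly.not (Poly.decide_eq hi (NPC.Poly.const 0))) (Poly.decide_eq t1 (NPC.Poly.const 0))))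
    (Poly.and (Poly.or ?_ (Poly.decide_eq t2 (NPC.Poly.const 0)))
      (Poly.or (Poly.not (Poly.decide_eq (Poly.succ hi) (Poly.length hD)))
        (Poly.decide_mem t3 hH)))
  exact Poly.any (p := fun a l => decide (l < i a) && decide (posN (D a) l = posN (D a) (i a)))
    (UPoly.range (UPoly.length hD)) (Poly.and (Poly.decide_lt (Poly.snd Poly.id) hi')
      (Poly.decide_eq (poly_posN hD' (Poly.snd Poly.id)) (poly_posN hD' hi')))

theorem poly_c0B {D : α → List (Option Bool)} {i j : α → ℕ} {t t' : α → Trans} (hD : Poly D)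
    (hi : Poly i) (ht : Poly t) (hj : Poly j) (ht' : Poly t') :
    NPC.Poly (fun a => c0B (D a) (i a) (t a) (j a) (t' a)) := by
  unfold c0B
  have t3 : NPC.Poly (fun a => (t a).2.2.1) := Poly.fst (Poly.snd (Poly.snd ht))
  have t4 : NPC.Poly (fun a => (t a).2.2.2.1) := Poly.fst (Poly.snd (Poly.snd (Poly.snd ht)))
  have t1' : NPC.Poly (fun a => (t' a).1) := Poly.fst ht'
  have t2' : NPC.Poly (fun a => (t' a).2.1) := Poly.fst (Poly.snd ht')
  exact Poly.and (Poly.or (Poly.not (Poly.decide_eq hj (Poly.succ hi))) (Poly.decide_eq t1' t3))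
    (Poly.or (Poly.not (poly_consB hD hi hj)) (Poly.decide_eq t2' t4))

theorem poly_coB {D : α → List (Option Bool)} {i j : α → ℕ} {t t' : α → Trans} (hD : Poly D)
    (hi : Poly i) (ht : Poly t) (hj : Poly j) (ht' : Poly t') :
    NPC.Poly (fun a => coB (D a) (i a) (t a) (j a) (t' a)) := by
  unfold coB
  exact Poly.cond (Poly.decide_lt hi hj) (poly_c0B hD hi ht hj ht') (poly_c0B hD hj ht' hi ht)

theorem poly_needB {D : α → List (Option Bool)} {P : α → List ℕ} {i : α → ℕ} (hD : Poly D)
    (hP : Poly P) (hi : Poly i) : NPC.Poly (fun a => needB (D a) (P a) (i a)) := by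
  unfold needB
  have hD' := hD.comp (Poly.fst (Poly.id (α := α × ℕ)))
  have hP' := hP.comp (Poly.fst (Poly.id (α := α × ℕ)))
  have hi' := hi.comp (Poly.fst (Poly.id (α := α × ℕ)))
  exact Poly.any (p := fun a j => !(decide (j ∈ P a)) && relB (D a) (i a) j)
    (UPoly.range (UPoly.length hD))
    (Poly.and (Poly.not (Poly.decide_mem (Poly.snd Poly.id) hP'))
      (poly_relB hD' hi' (Poly.snd Poly.id)))

/-! ### The sweep -/

theorem poly_sweepStep {dom : α → List Trans} {U : α → List (List (ℕ × Trans))}
    {H : α → List ℕ} {D : α → List (Option Bool)} {P : α → List ℕ} {i : α → ℕ}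
    {R : α → List (List (ℕ × Trans))} (hdom : Poly dom) (hU : Poly U) (hH : Poly H)
    (hD : Poly D) (hP : Poly P) (hi : Poly i) (hR : Poly R) :
    NPC.Poly (fun a => sweepStep (dom a) (U a) (unB (H a) (D a)) (coB (D a)) (needB (D a)) (P a) (i a)
      (R a)) := by
  unfold sweepStep
  refine Poly.filter (p := fun a (v : List (ℕ × Trans)) => (R a).any
    (fun (u : List (ℕ × Trans)) => (dom a).any (fun (t : Trans) =>
    unB (H a) (D a) (i a) t && (u.all (fun x => coB (D a) (i a) t x.1 x.2) &&
      decide (v = ((i a, t) :: u).filter (fun x => needB (D a) (P a) x.1)))))) hU ?_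
  refine Poly.any (p := fun (p : α × List (ℕ × Trans)) u => (dom p.1).any (fun t =>
    unB (H p.1) (D p.1) (i p.1) t && (u.all (fun x => coB (D p.1) (i p.1) t x.1 x.2) &&
      decide (p.2 = ((i p.1, t) :: u).filter (fun x => needB (D p.1) (P p.1) x.1)))))
    (hR.comp (Poly.fst Poly.id)) ?_
  refine Poly.any (p := fun (p : (α × List (ℕ × Trans)) × List (ℕ × Trans)) t =>
    unB (H p.1.1) (D p.1.1) (i p.1.1) t &&
      (p.2.all (fun x => coB (D p.1.1) (i p.1.1) t x.1 x.2) &&
      decide (p.1.2 = ((i p.1.1, t) :: p.2).filter (fun x => needB (D p.1.1) (P p.1.1) x.1))))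
    (hdom.comp (Poly.fst (Poly.fst Poly.id))) ?_
  have ha : NPC.Poly (fun p : ((α × List (ℕ × Trans)) × List (ℕ × Trans)) × Trans => p.1.1.1) :=
    Poly.fst (Poly.fst (Poly.fst Poly.id))
  have hv : NPC.Poly (fun p : ((α × List (ℕ × Trans)) × List (ℕ × Trans)) × Trans => p.1.1.2) :=
    Poly.snd (Poly.fst (Poly.fst Poly.id))
  have hu : NPC.Poly (fun p : ((α × List (ℕ × Trans)) × List (ℕ × Trans)) × Trans => p.1.2) :=
    Poly.snd (Poly.fst Poly.id)
  have ht : NPC.Poly (fun p : ((α × List (ℕ × Trans)) × List (ℕ × Trans)) × Trans => p.2) :=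
    Poly.snd Poly.id
  refine Poly.and (poly_unB (hH.comp ha) (hD.comp ha) (hi.comp ha) ht) (Poly.and ?_ ?_)
  · refine Poly.all (p := fun (p : ((α × List (ℕ × Trans)) × List (ℕ × Trans)) × Trans) x =>
      coB (D p.1.1.1) (i p.1.1.1) p.2 x.1 x.2) hu ?_
    have ha' := ha.comp (Poly.fst (Poly.id
      (α := (((α × List (ℕ × Trans)) × List (ℕ × Trans)) × Trans) × ℕ × Trans)))
    exact poly_coB (hD.comp ha') (hi.comp ha') (ht.comp (Poly.fst Poly.id))
      (Poly.fst (Poly.snd Poly.id)) (Poly.snd (Poly.snd Poly.id))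
  · refine Poly.decide_eq hv (Poly.filter
      (p := fun (p : ((α × List (ℕ × Trans)) × List (ℕ × Trans)) × Trans) x =>
        needB (D p.1.1.1) (P p.1.1.1) x.1) (Poly.cons (Poly.pair (hi.comp ha) ht) hu) ?_)
    have ha' := ha.comp (Poly.fst (Poly.id
      (α := (((α × List (ℕ × Trans)) × List (ℕ × Trans)) × Trans) × ℕ × Trans)))
    exact poly_needB (hD.comp ha') (hP.comp ha') (Poly.fst (Poly.snd Poly.id))

theorem sz_filter_le (l : List β) (p : β → Bool) : sz (l.filter p) ≤ sz l := by
  induction l with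
  | nil => simp
  | cons b l ih =>
    rw [List.filter_cons]
    split_ifs
    · simp
      omega
    · simp
      omega

theorem foldF_snd_le {T : Type} [DecidableEq T] (dom : List T) (U : List (List (ℕ × T)))
    (un : ℕ → T → Bool) (co : ℕ → T → ℕ → T → Bool) (need : List ℕ → ℕ → Bool) (L : List ℕ)
    [TEnc T] (hU : 3 ≤ sz U + 2) :
    sz (L.foldl (foldF dom U un co need) ([], [[]])) ≤ sz L + (sz U + 2) + 1 := by
  have h := foldl_sweep dom U un co need L []
  have h0 : sweep dom U un co need [] = [[]] := rfl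
  rw [h0] at h
  rw [h, List.append_nil, sz_pair, sz_reverse]
  have h1 : sz (sweep dom U un co need L.reverse) ≤ sz U + 2 := by
    cases hL : L.reverse with
    | nil =>
      rw [h0]
      simp
      omega
    | cons i P =>
      have h2 : sz (sweep dom U un co need (i :: P)) ≤ sz U := sz_filter_le U _
      omega
  omega

theorem poly_order {D : α → List (Option Bool)} {s r : α → ℕ} (hD : Poly D) (hs : UPoly s)
    (hr : Poly r) : NPC.Poly (fun a => order (D a) (s a) (r a)) := by
  unfold order
  refine Poly.flatMap (F := fun a b => (List.range (D a).length).filter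
    (fun i => decide ((posN (D a) i + r a) / s a = b))) ?_ ?_
  · exact UPoly.range (UPoly.add (UPoly.add (UPoly.mul (UPoly.const 2) (UPoly.length hD)) hs)
      (UPoly.const 1))
  · refine Poly.filter (p := fun (p : α × ℕ) i =>
      decide ((posN (D p.1) i + r p.1) / s p.1 = p.2))
      ((UPoly.range (UPoly.length hD)).comp (Poly.fst Poly.id)) ?_
    have ha : NPC.Poly (fun p : (α × ℕ) × ℕ => p.1.1) := Poly.fst (Poly.fst Poly.id)
    exact Poly.decide_eq (Poly.div (Poly.add (poly_posN (hD.comp ha) (Poly.snd Poly.id))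
      (hr.comp ha)) (hs.toPoly.comp ha)) (Poly.snd (Poly.fst Poly.id))

theorem poly_foldF {dom : α → List Trans} {U : α → List (List (ℕ × Trans))}
    {H : α → List ℕ} {D : α → List (Option Bool)} {L : α → List ℕ} (hdom : Poly dom)
    (hU : Poly U) (hH : Poly H) (hD : Poly D) (hL : Poly L) :
    NPC.Poly (fun a => (L a).foldl
      (foldF (dom a) (U a) (unB (H a) (D a)) (coB (D a)) (needB (D a))) ([], [[]])) := by
  obtain ⟨u, hu⟩ := hU.sz_le
  obtain ⟨l, hl⟩ := hL.sz_le
  refine Poly.foldl (s := fun _ => (([], [[]]) : List ℕ × List (List (ℕ × Trans))))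
    (F := fun a st i => foldF (dom a) (U a) (unB (H a) (D a)) (coB (D a)) (needB (D a)) st i)
    hL (NPC.Poly.const _) ?_ (l + u + Polynomial.C 3) ?_
  · unfold foldF
    have ha : NPC.Poly (fun p : α × (List ℕ × List (List (ℕ × Trans))) × ℕ => p.1) :=
      Poly.fst Poly.id
    have hP : NPC.Poly (fun p : α × (List ℕ × List (List (ℕ × Trans))) × ℕ => p.2.1.1) :=
      Poly.fst (Poly.fst (Poly.snd Poly.id))
    have hR : NPC.Poly (fun p : α × (List ℕ × List (List (ℕ × Trans))) × ℕ => p.2.1.2) :=
      Poly.snd (Poly.fst (Poly.snd Poly.id))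
    have hi : NPC.Poly (fun p : α × (List ℕ × List (List (ℕ × Trans))) × ℕ => p.2.2) :=
      Poly.snd (Poly.snd Poly.id)
    exact Poly.pair (Poly.cons hi hP) (poly_sweepStep (hdom.comp ha) (hU.comp ha) (hH.comp ha)
      (hD.comp ha) (Poly.cons hi hP) hi hR)
  · intro a k _
    refine le_trans (foldF_snd_le (dom a) (U a) (unB (H a) (D a)) (coB (D a)) (needB (D a))
      ((L a).take k) (by have := sz_pos (U a); omega)) ?_
    have h2 := NPC.Poly.sz_take_le (L a) k
    have h3 := hl a
    have h4 := hu a
    simp only [Polynomial.eval_add, Polynomial.eval_C]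
    omega

theorem poly_acceptB {M : α → Machine} {k : α → ℕ} {D : α → List (Option Bool)} {r : α → ℕ}
    (hM : Poly M) (hs : UPoly (fun a => Nat.sqrt (k a))) (hD : Poly D) (hr : Poly r)
    (hU : NPC.Poly (fun a => nodes (M a) (k a) (D a).length)) :
    NPC.Poly (fun a => acceptB (M a) (k a) (D a) (r a)) := by
  unfold acceptB
  refine Poly.not (Poly.isEmpty (Poly.snd (poly_foldF (Poly.fst hM) hU (Poly.snd hM) hD ?_)))
  exact poly_order hD (UPoly.add hs (UPoly.const 1)) hr

/-! ### Square roots -/

theorem sqrt_filter (k : ℕ) : ((List.range (k + 1)).filter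
    (fun s => decide (0 < s) && decide (s * s ≤ k))).length = Nat.sqrt k := by
  classical
  have hnd : ((List.range (k + 1)).filter
      (fun s => decide (0 < s) && decide (s * s ≤ k))).Nodup := List.nodup_range.filter _
  rw [← List.toFinset_card_of_nodup hnd]
  have h : ((List.range (k + 1)).filter
      (fun s => decide (0 < s) && decide (s * s ≤ k))).toFinset = Finset.Icc 1 (Nat.sqrt k) := by
    ext s
    rw [List.mem_toFinset, List.mem_filter, List.mem_range, Finset.mem_Icc, Bool.and_eq_true,
      decide_eq_true_iff, decide_eq_true_iff, ← Nat.le_sqrt]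
    have := Nat.sqrt_le_self k
    constructor
    · rintro ⟨_, h1, h2⟩
      exact ⟨h1, h2⟩
    · rintro ⟨h1, h2⟩
      exact ⟨by omega, h1, h2⟩
  rw [h, Nat.card_Icc]
  omega

theorem upoly_sqrt {k : α → ℕ} (hk : UPoly k) : UPoly (fun a => Nat.sqrt (k a)) := by
  have h1 : NPC.Poly (fun a => (List.range (k a + 1)).filter
      (fun s => decide (0 < s) && decide (s * s ≤ k a))) := by
    refine Poly.filter (p := fun a s => decide (0 < s) && decide (s * s ≤ k a))
      (UPoly.range (UPoly.add hk (UPoly.const 1))) ?_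
    exact Poly.and (Poly.decide_lt (NPC.Poly.const 0) (Poly.snd Poly.id))
      (Poly.decide_le (Poly.mul (Poly.snd Poly.id) (Poly.snd Poly.id))
        (hk.toPoly.comp (Poly.fst Poly.id)))
  have h2 := UPoly.length h1
  unfold UPoly at h2 ⊢
  exact h2.congr fun a => by
    beta_reduce
    rw [sqrt_filter]

/-! ### The padded inputs -/

/-- The instances: a machine and a number in unary. -/
abbrev Inst : Type := Machine × List Unit

/-- The logarithm of the padding. -/
def expo (a : Inst) : ℕ :=
  2 * a.2.length + (2 * (Nat.sqrt a.2.length + 1)) * (a.2.length * a.1.1.length + 1).size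

theorem upoly_expo : UPoly expo := by
  unfold expo
  have hk : UPoly (fun a : Inst => a.2.length) := UPoly.length (Poly.snd Poly.id)
  have hM : UPoly (fun a : Inst => a.1.1.length) :=
    UPoly.length (Poly.fst (Poly.fst Poly.id))
  have hsz : UPoly (fun a : Inst => (a.2.length * a.1.1.length + 1).size) := by
    have h1 : NPC.Poly (fun a : Inst => (a.2.length * a.1.1.length + 1)) :=
      (UPoly.add (UPoly.mul hk hM) (UPoly.const 1)).toPoly
    have h2 := UPoly.length (Poly.natBits h1)
    unfold UPoly at h2 ⊢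
    exact h2.congr fun a => by
      beta_reduce
      rw [Nat.size_eq_bits_len]
  exact UPoly.add (UPoly.mul (UPoly.const 2) hk)
    (UPoly.mul (UPoly.mul (UPoly.const 2) (UPoly.add (upoly_sqrt hk) (UPoly.const 1))) hsz)

/-- The padded inputs. -/
abbrev Pad : Type := {x : Inst × List Unit // 2 ^ expo x.1 ≤ x.2.length}

theorem pad_le_sz (x : Pad) : x.1.2.length ≤ sz x := by
  have h1 := length_lt_sz x.1.2
  have h2 : sz x = sz x.1.1 + sz x.1.2 + 1 := sz_pair x.1.1 x.1.2
  omega

theorem length_pairs (M : Machine) (m : ℕ) : (pairs M m).length = m * M.1.length := by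
  unfold pairs
  rw [List.length_flatMap]
  simp

theorem poly_pairs {M : α → Machine} {m : α → ℕ} (hM : Poly M) (hm : UPoly m) :
    NPC.Poly (fun a => pairs (M a) (m a)) := by
  unfold pairs
  refine Poly.flatMap (F := fun a i => (M a).1.map (fun t => (i, t))) (UPoly.range hm) ?_
  refine NPC.Poly.map (F := fun (p : α × ℕ) t => (p.2, t))
    (Poly.fst (hM.comp (Poly.fst Poly.id))) ?_
  exact Poly.pair (Poly.snd (Poly.fst Poly.id)) (Poly.snd Poly.id)

/-- The algorithm on padded inputs. -/
theorem poly_algB : NPC.Poly (fun x : Pad => algB x.1.1.1 x.1.1.2.length) := by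
  have hx : NPC.Poly (fun x : Pad => x.1) := Poly.val _
  have hM : NPC.Poly (fun x : Pad => x.1.1.1) := Poly.fst (Poly.fst hx)
  have hk : UPoly (fun x : Pad => x.1.1.2.length) := UPoly.length (Poly.snd (Poly.fst hx))
  have hs : UPoly (fun x : Pad => Nat.sqrt x.1.1.2.length) := upoly_sqrt hk
  unfold algB
  refine Poly.or (Poly.decide_mem (NPC.Poly.const 0) (Poly.snd hM)) ?_
  -- the nodes for directions of length at most `k`; longer lists of directions do not occur
  have hD : NPC.Poly (fun x : Pad =>
      tups ([none, some false, some true] : List (Option Bool)) x.1.1.2.length) := by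
    refine poly_tups (X := fun _ => [none, some false, some true]) (NPC.Poly.const _) hk
      Polynomial.X ?_
    intro x
    rw [Polynomial.eval_X]
    refine le_trans ?_ (x.2.trans (pad_le_sz x))
    change 4 ^ x.1.1.2.length ≤ 2 ^ expo x.1.1
    have : (4 : ℕ) = 2 ^ 2 := by norm_num
    rw [this, ← pow_mul]
    refine Nat.pow_le_pow_right (by norm_num) ?_
    unfold expo
    omega
  -- replace the length of `D` by the minimum with `k`
  have hany : NPC.Poly (fun x : Pad =>
      (tups ([none, some false, some true] : List (Option Bool)) x.1.1.2.length).any (fun D =>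
        !D.isEmpty && (List.range (Nat.sqrt x.1.1.2.length + 1)).any (fun r =>
          !((order D (Nat.sqrt x.1.1.2.length + 1) r).foldl
            (foldF x.1.1.1.1 (nodes x.1.1.1 x.1.1.2.length (min D.length x.1.1.2.length))
              (unB x.1.1.1.2 D) (coB D) (needB D)) ([], [[]])).2.isEmpty))) := by
    refine Poly.any (p := fun (x : Pad) D =>
        !D.isEmpty && (List.range (Nat.sqrt x.1.1.2.length + 1)).any (fun r =>
          !((order D (Nat.sqrt x.1.1.2.length + 1) r).foldl
            (foldF x.1.1.1.1 (nodes x.1.1.1 x.1.1.2.length (min D.length x.1.1.2.length))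
              (unB x.1.1.1.2 D) (coB D) (needB D)) ([], [[]])).2.isEmpty)) hD ?_
    refine Poly.and (Poly.not (Poly.isEmpty (Poly.snd Poly.id))) ?_
    refine Poly.any (p := fun (p : Pad × List (Option Bool)) r =>
          !((order p.2 (Nat.sqrt p.1.1.1.2.length + 1) r).foldl
            (foldF p.1.1.1.1.1 (nodes p.1.1.1.1 p.1.1.1.2.length
              (min p.2.length p.1.1.1.2.length))
              (unB p.1.1.1.1.2 p.2) (coB p.2) (needB p.2)) ([], [[]])).2.isEmpty)
      (UPoly.range (UPoly.add (hs.comp (Poly.fst Poly.id)) (UPoly.const 1))) ?_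
    have hp : NPC.Poly (fun p : (Pad × List (Option Bool)) × ℕ => p.1.1) :=
      Poly.fst (Poly.fst Poly.id)
    have hD2 : NPC.Poly (fun p : (Pad × List (Option Bool)) × ℕ => p.1.2) :=
      Poly.snd (Poly.fst Poly.id)
    have hr2 : NPC.Poly (fun p : (Pad × List (Option Bool)) × ℕ => p.2) := Poly.snd Poly.id
    have hM2 := hM.comp hp
    have hk2 := hk.comp hp
    have hs2 := hs.comp hp
    refine Poly.not (Poly.isEmpty (Poly.snd (poly_foldF (Poly.fst hM2) ?_ (Poly.snd hM2) hD2
      (poly_order hD2 (UPoly.add hs2 (UPoly.const 1)) hr2))))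
    unfold nodes
    have hmin : UPoly (fun p : (Pad × List (Option Bool)) × ℕ =>
        min p.1.2.length p.1.1.1.1.2.length) :=
      UPoly.of_le (Poly.min (Poly.length hD2) hk2.toPoly) hk2 fun p => min_le_right _ _
    refine poly_tups (poly_pairs hM2 hmin)
      (UPoly.mul (UPoly.const 2) (UPoly.add hs2 (UPoly.const 1))) Polynomial.X ?_
    intro p
    rw [Polynomial.eval_X]
    have h1 := p.1.1.2.trans (pad_le_sz p.1.1)
    have h2 : sz p.1.1 ≤ sz p := by
      have e1 : sz p = sz p.1 + sz p.2 + 1 := sz_pair p.1 p.2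
      have e2 : sz p.1 = sz p.1.1 + sz p.1.2 + 1 := sz_pair p.1.1 p.1.2
      omega
    refine le_trans ?_ (h1.trans h2)
    rw [length_pairs]
    have h3 : min p.1.2.length p.1.1.1.1.2.length * p.1.1.1.1.1.1.length + 1 ≤
        2 ^ (p.1.1.1.1.2.length * p.1.1.1.1.1.1.length + 1).size := by
      refine le_trans ?_ (Nat.lt_size_self _).le
      exact Nat.add_le_add_right (Nat.mul_le_mul_right _ (min_le_right _ _)) 1
    refine (Nat.pow_le_pow_left h3 _).trans ?_
    rw [← pow_mul]
    refine Nat.pow_le_pow_right (by norm_num) ?_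
    unfold expo
    rw [mul_comm (Nat.size _)]
    omega
  refine hany.congr fun x => ?_
  rw [Bool.eq_iff_iff, List.any_eq_true, List.any_eq_true]
  refine exists_congr fun D => and_congr_right fun hD => ?_
  rw [mem_tups] at hD
  rw [min_eq_left hD.1]
  rfl

end Pool.Agent.L5helper58.KS
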