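import Mathlib
import Pool.Agent.NPC.Defs

/-!
# Nondeterministic one-tape Turing machines and the `k`-step halting problem
-/

set_option autoImplicit false

namespace Pool.Agent.L5helper58.KS

/-- The transition `(q, a, q', a', d)`: in the state `q`, if the head reads `a`, go to the state
`q'`, write `a'`, and move the head as `d` says: `some true` one cell to the right, `some false` one
cell to the left, `none` no move. -/
abbrev Trans : Type := ℕ × ℕ × ℕ × ℕ × Option Bool

/-- A nondeterministic Turing machine with one tape: the list of its transitions and the list of its
halting states. States and symbols are numbers, `0` is the start state and `0` the blank. -/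
abbrev Machine : Type := List Trans × List ℕ

/-- A configuration: state, position of the head, contents of the tape. -/
structure Config where
  state : ℕ
  head : ℤ
  tape : ℤ → ℕ

/-- The move of the head. -/
def move : Option Bool → ℤ
  | none => 0
  | some false => -1
  | some true => 1

/-- One step of the machine. -/
def Step (M : Machine) (c c' : Config) : Prop :=
  ∃ q a q' a' d, (q, a, q', a', d) ∈ M.1 ∧ c.state = q ∧ c.tape c.head = a ∧
    c' = ⟨q', c.head + move d, Function.update c.tape c.head a'⟩

/-- Started on the blank tape, the machine can enter a halting state after at most `k` steps. -/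
def Halts (M : Machine) (k : ℕ) : Prop :=
  ∃ m ≤ k, ∃ c : ℕ → Config, c 0 = ⟨0, 0, fun _ => 0⟩ ∧
    (∀ i < m, Step M (c i) (c (i + 1))) ∧ (c m).state ∈ M.2

end Pool.Agent.L5helper58.KS
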