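import Mathlib

/-!
# The frontier of a sweep through the computation of a one-tape machine

`P i` is the position of the head at time `i`. The tape is divided into blocks of `s` cells with an
offset `r`; the times are ordered by the block and then by time. At each moment of this sweep only few
of the times that have been passed are related to a time that has not been passed.
-/

set_option autoImplicit false

namespace Pool.Agent.L5helper58.KS

/-- The block of the time `i`. -/
def blk (P : ℕ → ℕ) (s r i : ℕ) : ℕ := (P i + r) / s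

/-- `j` is the next time after `i` when the head is at the same cell. -/
def Cons (P : ℕ → ℕ) (i j : ℕ) : Prop :=
  i < j ∧ P i = P j ∧ ∀ l, i < l → l < j → P l ≠ P i

/-- Related times. -/
def Rel (P : ℕ → ℕ) (i j : ℕ) : Prop :=
  j = i + 1 ∨ i = j + 1 ∨ Cons P i j ∨ Cons P j i

/-- The order of the sweep. -/
def Lt (P : ℕ → ℕ) (s r i j : ℕ) : Prop :=
  blk P s r i < blk P s r j ∨ (blk P s r i = blk P s r j ∧ i < j)

open Classical in
/-- The times at which the head leaves a block. -/
noncomputable def cross (P : ℕ → ℕ) (s r m : ℕ) : Finset ℕ :=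
  (Finset.range m).filter (fun i => blk P s r i ≠ blk P s r (i + 1))

theorem div_change {x s r r' : ℕ} (hr : r < s) (hr' : r' < s)
    (h : (x + r) / s ≠ (x + 1 + r) / s) (h' : (x + r') / s ≠ (x + 1 + r') / s) : r = r' := by
  have key : ∀ q, (x + q) / s ≠ (x + 1 + q) / s → s ∣ x + q + 1 := by
    intro q hq
    by_contra hn
    apply hq
    have : x + 1 + q = (x + q) + 1 := by ring
    rw [this, Nat.succ_div_of_not_dvd hn]
  have h1 := key r h
  have h2 := key r' h'
  rcases le_total r r' with hle | hle
  · have h3 := (Nat.dvd_sub h2 h1)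
    have h4 : x + r' + 1 - (x + r + 1) = r' - r := by omega
    rw [h4] at h3
    have h5 := Nat.eq_zero_of_dvd_of_lt h3 (by omega)
    omega
  · have h3 := (Nat.dvd_sub h1 h2)
    have h4 : x + r + 1 - (x + r' + 1) = r - r' := by omega
    rw [h4] at h3
    have h5 := Nat.eq_zero_of_dvd_of_lt h3 (by omega)
    omega

theorem change_unique {P : ℕ → ℕ} {i s r r' : ℕ} (h1 : P (i + 1) ≤ P i + 1)
    (h2 : P i ≤ P (i + 1) + 1) (hr : r < s) (hr' : r' < s)
    (h : blk P s r i ≠ blk P s r (i + 1)) (h' : blk P s r' i ≠ blk P s r' (i + 1)) : r = r' := by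
  unfold blk at h h'
  rcases lt_trichotomy (P i) (P (i + 1)) with hlt | heq | hgt
  · have e : P (i + 1) = P i + 1 := by omega
    rw [e] at h h'
    exact div_change hr hr' h h'
  · rw [heq] at h
    exact absurd rfl h
  · have e : P i = P (i + 1) + 1 := by omega
    rw [e] at h h'
    exact div_change hr hr' (Ne.symm h) (Ne.symm h')

open Classical in
/-- Some offset has few crossings. -/
theorem exists_offset {P : ℕ → ℕ} {m s : ℕ} (hs : 0 < s)
    (h1 : ∀ i < m, P (i + 1) ≤ P i + 1) (h2 : ∀ i < m, P i ≤ P (i + 1) + 1) :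
    ∃ r < s, (cross P s r m).card ≤ m / s := by
  by_contra hcon
  push Not at hcon
  have hsum : ∑ r ∈ Finset.range s, (cross P s r m).card ≤ m := by
    calc ∑ r ∈ Finset.range s, (cross P s r m).card
        = ∑ r ∈ Finset.range s, ∑ i ∈ Finset.range m,
            if blk P s r i ≠ blk P s r (i + 1) then 1 else 0 := by
          refine Finset.sum_congr rfl fun r _ => ?_
          rw [cross, Finset.card_filter]
      _ = ∑ i ∈ Finset.range m, ∑ r ∈ Finset.range s,
            if blk P s r i ≠ blk P s r (i + 1) then 1 else 0 := Finset.sum_comm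
      _ ≤ ∑ i ∈ Finset.range m, 1 := by
          refine Finset.sum_le_sum fun i hi => ?_
          rw [← Finset.card_filter, Finset.card_le_one]
          intro r hr r' hr'
          rw [Finset.mem_filter, Finset.mem_range] at hr hr'
          have hi' := Finset.mem_range.mp hi
          exact change_unique (h1 i hi') (h2 i hi') hr.1 hr'.1 hr.2 hr'.2
      _ = m := by simp
  have hsum2 : ∑ _r ∈ Finset.range s, (m / s + 1) ≤
      ∑ r ∈ Finset.range s, (cross P s r m).card :=
    Finset.sum_le_sum fun r hr => hcon r (Finset.mem_range.mp hr)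
  rw [Finset.sum_const, Finset.card_range, smul_eq_mul] at hsum2
  have h3 : m < s * (m / s + 1) := by
    have := Nat.lt_mul_div_succ m hs
    exact this
  omega

theorem lt_irrefl' {P : ℕ → ℕ} {s r i : ℕ} : ¬ Lt P s r i i := by
  rintro (h | h)
  · exact absurd h (lt_irrefl _)
  · exact absurd h.2 (lt_irrefl _)

theorem blk_le_of_lt {P : ℕ → ℕ} {s r i j : ℕ} (h : Lt P s r i j) :
    blk P s r i ≤ blk P s r j := by
  rcases h with h | h
  · exact h.le
  · exact h.1.le

theorem blk_eq_of_pos {P : ℕ → ℕ} {s r i j : ℕ} (h : P i = P j) :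
    blk P s r i = blk P s r j := by
  unfold blk
  rw [h]

open Classical in
/-- The frontier is small. -/
theorem frontier {P : ℕ → ℕ} {m s r : ℕ} (hs : 0 < s) (A Q : Finset ℕ)
    (hA : ∀ i ∈ A, i < m) (hQ : ∀ i ∈ Q, i < m)
    (hlt : ∀ i ∈ A, ∀ j ∈ Q, Lt P s r i j) :
    (A.filter (fun i => ∃ j ∈ Q, Rel P i j)).card ≤ (cross P s r m).card + 1 + s := by
  have hdisj : ∀ i ∈ A, i ∉ Q := fun i hi hi' => lt_irrefl' (hlt i hi i hi')
  let F1 := A.filter (fun i => ∃ j ∈ Q, (j = i + 1 ∨ i = j + 1) ∧ blk P s r i ≠ blk P s r j)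
  let F2 := A.filter (fun i => i + 1 ∈ Q ∧ blk P s r i = blk P s r (i + 1))
  let F3 := A.filter (fun i => ∃ j ∈ Q, Cons P i j)
  have hsub : A.filter (fun i => ∃ j ∈ Q, Rel P i j) ⊆ (F1 ∪ F2) ∪ F3 := by
    intro i hi
    rw [Finset.mem_filter] at hi
    obtain ⟨hiA, j, hjQ, hrel⟩ := hi
    have hij := hlt i hiA j hjQ
    rcases hrel with h | h | h | h
    · by_cases hb : blk P s r i = blk P s r j
      · subst h
        exact Finset.mem_union_left _ (Finset.mem_union_right _
          (Finset.mem_filter.mpr ⟨hiA, hjQ, hb⟩))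
      · exact Finset.mem_union_left _ (Finset.mem_union_left _
          (Finset.mem_filter.mpr ⟨hiA, j, hjQ, Or.inl h, hb⟩))
    · by_cases hb : blk P s r i = blk P s r j
      · rcases hij with hij | hij
        · omega
        · omega
      · exact Finset.mem_union_left _ (Finset.mem_union_left _
          (Finset.mem_filter.mpr ⟨hiA, j, hjQ, Or.inr h, hb⟩))
    · exact Finset.mem_union_right _ (Finset.mem_filter.mpr ⟨hiA, j, hjQ, h⟩)
    · have hb : blk P s r i = blk P s r j := blk_eq_of_pos h.2.1.symm
      have := h.1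
      rcases hij with hij | hij
      · omega
      · omega
  have c1 : F1.card ≤ (cross P s r m).card := by
    refine Finset.card_le_card_of_injOn
      (fun i => if i + 1 ∈ Q ∧ blk P s r i ≠ blk P s r (i + 1) then i else i - 1) ?_ ?_
    · intro i hi
      have hi' := Finset.mem_filter.mp (Finset.mem_coe.mp hi)
      obtain ⟨hiA, j, hjQ, hj, hb⟩ := hi'
      rw [Finset.mem_coe, cross, Finset.mem_filter, Finset.mem_range]
      beta_reduce
      by_cases hc : i + 1 ∈ Q ∧ blk P s r i ≠ blk P s r (i + 1)
      · rw [if_pos hc]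
        exact ⟨hA i hiA, hc.2⟩
      · rw [if_neg hc]
        rcases hj with hj | hj
        · subst hj
          exact absurd ⟨hjQ, hb⟩ hc
        · subst hj
          rw [Nat.add_sub_cancel]
          exact ⟨hQ j hjQ, hb.symm⟩
    · intro i hi i' hi' h
      have hi1 := Finset.mem_filter.mp (Finset.mem_coe.mp hi)
      have hi2 := Finset.mem_filter.mp (Finset.mem_coe.mp hi')
      obtain ⟨hiA, j, hjQ, hj, hb⟩ := hi1
      obtain ⟨hiA', j', hjQ', hj', hb'⟩ := hi2
      beta_reduce at h
      by_cases hc : i + 1 ∈ Q ∧ blk P s r i ≠ blk P s r (i + 1)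
      · rw [if_pos hc] at h
        by_cases hc' : i' + 1 ∈ Q ∧ blk P s r i' ≠ blk P s r (i' + 1)
        · rw [if_pos hc'] at h
          exact h
        · rw [if_neg hc'] at h
          rcases hj' with hj' | hj'
          · subst hj'
            exact absurd ⟨hjQ', hb'⟩ hc'
          · exfalso
            have : i + 1 = i' := by omega
            exact hdisj i' hiA' (this ▸ hc.1)
      · rw [if_neg hc] at h
        rcases hj with hj | hj
        · subst hj
          exact absurd ⟨hjQ, hb⟩ hc
        · by_cases hc' : i' + 1 ∈ Q ∧ blk P s r i' ≠ blk P s r (i' + 1)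
          · rw [if_pos hc'] at h
            exfalso
            have : i' + 1 = i := by omega
            exact hdisj i hiA (this ▸ hc'.1)
          · rw [if_neg hc'] at h
            rcases hj' with hj' | hj'
            · subst hj'
              exact absurd ⟨hjQ', hb'⟩ hc'
            · omega
  have c2 : F2.card ≤ 1 := by
    rw [Finset.card_le_one]
    intro i hi i' hi'
    rw [Finset.mem_filter] at hi hi'
    have e1 := hlt i hi.1 _ hi'.2.1
    have e2 := hlt i' hi'.1 _ hi.2.1
    have b1 := blk_le_of_lt e1
    have b2 := blk_le_of_lt e2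
    have b3 := hi.2.2
    have b4 := hi'.2.2
    rcases e1 with e1 | e1
    · omega
    · rcases e2 with e2 | e2
      · omega
      · omega
  have c3 : F3.card ≤ s := by
    have hinj : Set.InjOn (fun i => (P i + r) % s) (F3 : Set ℕ) := by
      intro i hi i' hi' h
      have hi1 := Finset.mem_filter.mp (Finset.mem_coe.mp hi)
      have hi2 := Finset.mem_filter.mp (Finset.mem_coe.mp hi')
      obtain ⟨hiA, j, hjQ, hj⟩ := hi1
      obtain ⟨hiA', j', hjQ', hj'⟩ := hi2
      beta_reduce at h
      have b1 := blk_le_of_lt (hlt i hiA j' hjQ')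
      have b2 := blk_le_of_lt (hlt i' hiA' j hjQ)
      have b3 : blk P s r i = blk P s r j := blk_eq_of_pos hj.2.1
      have b4 : blk P s r i' = blk P s r j' := blk_eq_of_pos hj'.2.1
      have b5 : blk P s r i = blk P s r i' := by omega
      have hP : P i = P i' := by
        unfold blk at b5
        have d1 := Nat.div_add_mod (P i + r) s
        have d2 := Nat.div_add_mod (P i' + r) s
        rw [b5, h] at d1
        omega
      by_contra hne
      rcases lt_or_gt_of_ne hne with hlt1 | hlt1
      · -- i < i'
        have h5 : ¬ (i' < j) := fun h6 => hj.2.2 i' hlt1 h6 hP.symm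
        have h6 := hlt i' hiA' j hjQ
        rcases h6 with h6 | h6
        · omega
        · exact h5 h6.2
      · have h5 : ¬ (i < j') := fun h6 => hj'.2.2 i hlt1 h6 hP
        have h6 := hlt i hiA j' hjQ'
        rcases h6 with h6 | h6
        · omega
        · exact h5 h6.2
    have := Finset.card_le_card_of_injOn (t := Finset.range s) (fun i => (P i + r) % s)
      (fun i _ => by
        rw [Finset.mem_coe, Finset.mem_range]
        exact Nat.mod_lt _ hs) hinj
    rwa [Finset.card_range] at this
  calc (A.filter (fun i => ∃ j ∈ Q, Rel P i j)).card ≤ ((F1 ∪ F2) ∪ F3).card :=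
        Finset.card_le_card hsub
    _ ≤ (F1 ∪ F2).card + F3.card := Finset.card_union_le _ _
    _ ≤ (F1.card + F2.card) + F3.card := Nat.add_le_add_right (Finset.card_union_le _ _) _
    _ ≤ (cross P s r m).card + 1 + s := by omega

end Pool.Agent.L5helper58.KS
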