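import Pool.Agent.L5helper58.KS.Emb
import Pool.Agent.H559R9.Main

/-!
# Lower bound for circuits that decide the halting problem
-/

set_option autoImplicit false

namespace Pool.Agent.L5helper58.KS

open Finset Filter Pool.Agent.H520R2.NM

theorem rpow_facts {c : ℝ} (hc : 1 ≤ c) {a b : ℝ} (hab : b < a) :
    ∀ᶠ n : ℕ in atTop, (n : ℝ) ^ b ≤ ((n : ℝ) / c) ^ a := by
  have h1 : Tendsto (fun n : ℕ => (n : ℝ) ^ (a - b)) atTop atTop :=
    (tendsto_rpow_atTop (by linarith)).comp tendsto_natCast_atTop_atTop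
  filter_upwards [h1.eventually_ge_atTop (c ^ a), eventually_ge_atTop 1] with n hn hn1
  have hn0 : (0 : ℝ) < n := by exact_mod_cast hn1
  rw [Real.div_rpow hn0.le (by linarith), le_div_iff₀ (Real.rpow_pos_of_pos (by linarith) a)]
  calc (n : ℝ) ^ b * c ^ a ≤ (n : ℝ) ^ b * (n : ℝ) ^ (a - b) := by gcongr
    _ = (n : ℝ) ^ a := by
      rw [← Real.rpow_add hn0]
      congr 1
      ring

open Classical in
theorem lower_gen {κ k : ℕ} (hκ : 3 ≤ κ) (hk : κ * κ + 2 * κ ≤ k + 1) {γ θ : ℝ} (hγ : 0 ≤ γ)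
    (hθ : 0 < θ) (h : θ + γ / 2 < 1) : ∃ α : ℝ, 0 < α ∧ ∀ᶠ n : ℕ in atTop,
      ∃ (Λ : Type) (_ : Fintype Λ) (_ : Nonempty Λ) (x : Λ → Tab n → Bool),
        ∀ (N : ℕ) (C : Circuit (Tab n) N) (out : Wire (Tab n) N),
          (((C.fanins.map (· + 1)).prod : ℕ) : ℝ) ≤ (n : ℝ) ^ γ →
          ((C.size + C.fanins.sum : ℕ) : ℝ) < (n : ℝ) ^ (θ * κ) →
          ((univ.filter (fun l => (out.eval (x l) (C.vals (x l)) = true ↔
            Halts (machineOf (x l)) k))).card : ℝ) <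
            (1 / 2 + (n : ℝ) ^ (-α)) * Fintype.card Λ := by
  obtain ⟨δ, hδ⟩ : ∃ δ, δ = (1 - θ - γ / 2) / 4 := ⟨_, rfl⟩
  have hδ0 : 0 < δ := by rw [hδ]; linarith
  obtain ⟨α, hα, hmain⟩ := Pool.Agent.H559R9.clique_rand κ hκ (γ + δ) (θ + δ) (by linarith)
    (by linarith) (by linarith)
  refine ⟨α / 2, by linarith, ?_⟩
  have hκ0 : (0 : ℝ) < κ := by exact_mod_cast (by omega : 0 < κ)
  have hκ1 : (1 : ℝ) ≤ κ := by exact_mod_cast (by omega : 1 ≤ κ)
  have hc : (1 : ℝ) ≤ 2 * κ := by linarith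
  have hm : Tendsto (fun n : ℕ => (n - (2 * κ + 2)) / κ) atTop atTop := by
    rw [tendsto_atTop]
    intro b
    filter_upwards [eventually_ge_atTop (b * κ + 2 * κ + 2)] with n hn
    rw [Nat.le_div_iff_mul_le (by omega)]
    omega
  filter_upwards [hm.eventually hmain, rpow_facts hc (a := γ + δ) (b := γ) (by linarith),
    rpow_facts hc (a := (θ + δ) * κ) (b := θ * κ) (by nlinarith),
    rpow_facts hc (a := α) (b := α / 2) (by linarith),
    eventually_ge_atTop (6 * κ + 2)] with n h1 h2 h3 h4 hn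
  obtain ⟨m, hmn⟩ : ∃ m, m = (n - (2 * κ + 2)) / κ := ⟨_, rfl⟩
  rw [← hmn] at h1
  obtain ⟨⟨Λ, hΛ1, hΛ2, x, hx⟩, -⟩ := h1
  have hmle : m * κ ≤ n - (2 * κ + 2) := by
    rw [hmn]
    exact Nat.div_mul_le_self _ _
  have hmlt : n - (2 * κ + 2) < m * κ + κ := by
    have := Nat.lt_div_mul_add (a := n - (2 * κ + 2)) (b := κ) (by omega)
    rw [hmn]
    exact this
  have hemb : κ * m + 2 * κ + 2 ≤ n := by
    rw [mul_comm]
    omega
  have hm0 : 0 < m := by
    rcases Nat.eq_zero_or_pos m with h0 | h0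
    · rw [h0] at hmlt
      omega
    · exact h0
  have hnm : (n : ℝ) / (2 * κ) ≤ m := by
    rw [div_le_iff₀ (by linarith)]
    have : n ≤ m * (2 * κ) := by
      have : m * (2 * κ) = m * κ + m * κ := by ring
      omega
    exact_mod_cast this
  have hn0 : (0 : ℝ) < n := by exact_mod_cast (by omega : 0 < n)
  have hnc : (0 : ℝ) < (n : ℝ) / (2 * κ) := by positivity
  have hm0' : (0 : ℝ) < m := by exact_mod_cast hm0
  obtain ⟨iQ, iA, hQ, hA, hQ0, hQ1, hA0⟩ := exists_embeddings hemb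
  obtain ⟨σ, hσ⟩ := exists_subst hQ hA (κ := κ) (m := m)
  refine ⟨Λ, hΛ1, hΛ2, fun l => tabOf iQ iA (x l), fun N C out hC1 hC2 => ?_⟩
  have key := hx N (substC σ C) (substW σ out) (by
    rw [substC_fanins]
    refine hC1.trans (h2.trans ?_)
    exact Real.rpow_le_rpow hnc.le hnm (by linarith)) (by
    rw [substC_fanins, substC_size]
    refine lt_of_lt_of_le hC2 (h3.trans ?_)
    exact Real.rpow_le_rpow hnc.le hnm (by positivity))
  have hm4 : (m : ℝ) ^ (-α) ≤ (n : ℝ) ^ (-(α / 2)) := by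
    rw [Real.rpow_neg hm0'.le, Real.rpow_neg hn0.le]
    refine inv_anti₀ (by positivity) (h4.trans ?_)
    exact Real.rpow_le_rpow hnc.le hnm hα.le
  have hset : (univ.filter (fun l => (out.eval (tabOf iQ iA (x l)) (C.vals (tabOf iQ iA (x l))) =
      true ↔ Halts (machineOf (tabOf iQ iA (x l))) k))) =
      (univ.filter (fun l => ((substW σ out).eval (x l) ((substC σ C).vals (x l)) = true ↔
            ¬ (SimpleGraph.fromEdgeSet {e | x l e = true}).CliqueFree κ))) := by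
    refine Finset.filter_congr fun l _ => ?_
    rw [substC_vals, substW_eval, hσ,
      clique_iff_halts (by omega) hm0 hQ hA hQ0 hQ1 hA0 (x l) hk]
  beta_reduce
  rw [hset]
  refine lt_of_lt_of_le key ?_
  have hcard : (0 : ℝ) ≤ Fintype.card Λ := Nat.cast_nonneg _
  have : (1 / 2 + (m : ℝ) ^ (-α)) ≤ (1 / 2 + (n : ℝ) ^ (-(α / 2))) := by linarith
  exact mul_le_mul_of_nonneg_right this hcard

end Pool.Agent.L5helper58.KS
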