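import Pool.Agent.L5helper58.KS.Defs
import Pool.Agent.L5helper58.KS.Front

/-!
# Computations of a machine as solutions of a constraint satisfaction problem

The directions `D` of the moves are fixed; the variables are the transitions that are used.
-/

set_option autoImplicit false

namespace Pool.Agent.L5helper58.KS

/-! ### The computation given by a sequence of transitions -/

/-- The configurations when the transitions `δ 0, δ 1, ...` are applied. -/
def runc (δ : ℕ → Trans) : ℕ → Config
  | 0 => ⟨0, 0, fun _ => 0⟩
  | i + 1 => ⟨(δ i).2.2.1, (runc δ i).head + move (δ i).2.2.2.2,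
      Function.update (runc δ i).tape (runc δ i).head (δ i).2.2.2.1⟩

/-- The transitions are applicable. -/
def Valid (M : Machine) (δ : ℕ → Trans) (m : ℕ) : Prop :=
  ∀ i < m, δ i ∈ M.1 ∧ (runc δ i).state = (δ i).1 ∧
    (runc δ i).tape (runc δ i).head = (δ i).2.1

theorem halts_iff_valid (M : Machine) (k : ℕ) :
    Halts M k ↔ ∃ m ≤ k, ∃ δ, Valid M δ m ∧ (runc δ m).state ∈ M.2 := by
  constructor
  · rintro ⟨m, hm, c, h0, hstep, hf⟩
    have hex : ∀ i, ∃ t : Trans, i < m → (t ∈ M.1 ∧ (c i).state = t.1 ∧
        (c i).tape (c i).head = t.2.1 ∧ c (i + 1) = ⟨t.2.2.1, (c i).head + move t.2.2.2.2,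
          Function.update (c i).tape (c i).head t.2.2.2.1⟩) := by
      intro i
      by_cases hi : i < m
      · obtain ⟨q, a, q', a', d, h1, h2, h3, h4⟩ := hstep i hi
        exact ⟨(q, a, q', a', d), fun _ => ⟨h1, h2, h3, h4⟩⟩
      · exact ⟨(0, 0, 0, 0, none), fun h => absurd h hi⟩
    choose δ hδ using hex
    have hrun : ∀ i ≤ m, c i = runc δ i := by
      intro i
      induction i with
      | zero => intro _; exact h0
      | succ i ih =>
        intro hi
        have h1 := (hδ i (by omega)).2.2.2
        have h2 := ih (by omega)
        rw [h2] at h1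
        exact h1
    refine ⟨m, hm, δ, ?_, ?_⟩
    · intro i hi
      have h1 := hδ i hi
      have h2 := hrun i hi.le
      rw [h2] at h1
      exact ⟨h1.1, h1.2.1, h1.2.2.1⟩
    · rw [← hrun m le_rfl]
      exact hf
  · rintro ⟨m, hm, δ, hv, hf⟩
    refine ⟨m, hm, runc δ, rfl, fun i hi => ?_, hf⟩
    obtain ⟨h1, h2, h3⟩ := hv i hi
    exact ⟨_, _, _, _, _, h1, h2, h3, rfl⟩

theorem tape_none {δ : ℕ → Trans} {i : ℕ} {x : ℤ} (h : ∀ l < i, (runc δ l).head ≠ x) :
    (runc δ i).tape x = 0 := by
  induction i with
  | zero => rfl
  | succ i ih =>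
    change Function.update (runc δ i).tape (runc δ i).head (δ i).2.2.2.1 x = 0
    rw [Function.update_of_ne (h i (Nat.lt_succ_self i)).symm]
    exact ih (fun l hl => h l (by omega))

theorem tape_last {δ : ℕ → Trans} {i l : ℕ} {x : ℤ} (hl : l < i) (hx : (runc δ l).head = x)
    (h : ∀ l', l < l' → l' < i → (runc δ l').head ≠ x) :
    (runc δ i).tape x = (δ l).2.2.2.1 := by
  induction i with
  | zero => omega
  | succ i ih =>
    change Function.update (runc δ i).tape (runc δ i).head (δ i).2.2.2.1 x = _
    rcases Nat.lt_succ_iff_lt_or_eq.mp hl with hli | hli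
    · rw [Function.update_of_ne (h i hli (Nat.lt_succ_self i)).symm]
      exact ih hli (fun l' h1 h2 => h l' h1 (by omega))
    · subst hli
      rw [← hx, Function.update_self]

/-! ### Positions -/

/-- The number of moves in the direction `b` before the time `i`. -/
def cnt (D : List (Option Bool)) (b : Bool) (i : ℕ) : ℕ :=
  ((List.range D.length).filter
    (fun j => decide (j < i) && decide (D.getD j none = some b))).length

/-- The position of the head, shifted to make it nonnegative. -/
def posN (D : List (Option Bool)) (i : ℕ) : ℕ := D.length + cnt D true i - cnt D false i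

theorem cnt_zero (D : List (Option Bool)) (b : Bool) : cnt D b 0 = 0 := by
  unfold cnt
  simp

theorem cnt_succ (D : List (Option Bool)) (b : Bool) {i : ℕ} (hi : i < D.length) :
    cnt D b (i + 1) = cnt D b i + if D.getD i none = some b then 1 else 0 := by
  have key : ∀ n i, i < n → ∀ q : ℕ → Bool,
      ((List.range n).filter (fun j => decide (j < i + 1) && q j)).length =
        ((List.range n).filter (fun j => decide (j < i) && q j)).length +
          if q i = true then 1 else 0 := by
    intro n
    induction n with
    | zero => intro i hi; omega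
    | succ n ih =>
      intro i hi q
      rw [List.range_succ, List.filter_append, List.filter_append, List.length_append,
        List.length_append]
      rcases Nat.lt_succ_iff_lt_or_eq.mp hi with h | h
      · rw [ih i h q]
        have e1 : decide (n < i + 1) = false := decide_eq_false (by omega)
        have e2 : decide (n < i) = false := decide_eq_false (by omega)
        have e3 : List.filter (fun j => decide (j < i + 1) && q j) [n] = [] := by
          rw [List.filter_cons, e1]
          rfl
        have e4 : List.filter (fun j => decide (j < i) && q j) [n] = [] := by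
          rw [List.filter_cons, e2]
          rfl
        rw [e3, e4]
        simp only [List.length_nil]
        omega
      · subst h
        have e1 : ((List.range i).filter (fun j => decide (j < i + 1) && q j)) =
            ((List.range i).filter (fun j => decide (j < i) && q j)) := by
          refine List.filter_congr fun j hj => ?_
          rw [List.mem_range] at hj
          have a1 : decide (j < i + 1) = true := decide_eq_true (by omega)
          have a2 : decide (j < i) = true := decide_eq_true hj
          rw [a1, a2]
        rw [e1]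
        cases hq : q i <;> simp [hq]
  unfold cnt
  rw [key D.length i hi (fun j => decide (D.getD j none = some b))]
  congr 1
  simp

theorem cnt_le (D : List (Option Bool)) (b : Bool) {i : ℕ} (hi : i ≤ D.length) :
    cnt D b i ≤ i := by
  induction i with
  | zero => rw [cnt_zero]
  | succ i ih =>
    rw [cnt_succ D b (by omega)]
    have := ih (by omega)
    split_ifs <;> omega

theorem posN_cast (D : List (Option Bool)) (δ : ℕ → Trans)
    (hD : ∀ i < D.length, (δ i).2.2.2.2 = D.getD i none) {i : ℕ} (hi : i ≤ D.length) :
    (posN D i : ℤ) = D.length + (runc δ i).head := by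
  have key : ∀ i ≤ D.length, (runc δ i).head = (cnt D true i : ℤ) - cnt D false i := by
    intro i
    induction i with
    | zero =>
      intro _
      rw [cnt_zero, cnt_zero]
      rfl
    | succ i ih =>
      intro hi
      have h1 := ih (by omega)
      have h2 := hD i (by omega)
      change (runc δ i).head + move (δ i).2.2.2.2 = _
      rw [cnt_succ D true (by omega), cnt_succ D false (by omega), h1, h2]
      cases h : D.getD i none with
      | none => simp [move]
      | some b => cases b <;> simp [move] <;> ring
  have h1 := key i hi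
  have h2 := cnt_le D false hi
  unfold posN
  omega

theorem posN_eq_iff (D : List (Option Bool)) (δ : ℕ → Trans)
    (hD : ∀ i < D.length, (δ i).2.2.2.2 = D.getD i none) {i j : ℕ} (hi : i ≤ D.length)
    (hj : j ≤ D.length) : posN D i = posN D j ↔ (runc δ i).head = (runc δ j).head := by
  have h1 := posN_cast D δ hD hi
  have h2 := posN_cast D δ hD hj
  omega

theorem posN_step (D : List (Option Bool)) {i : ℕ} (hi : i < D.length) :
    posN D (i + 1) ≤ posN D i + 1 ∧ posN D i ≤ posN D (i + 1) + 1 := by
  unfold posN
  have h1 := cnt_le D false (i := i) hi.le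
  have h2 := cnt_le D false (i := i + 1) hi
  rw [cnt_succ D true hi, cnt_succ D false hi]
  rw [cnt_succ D false hi] at h2
  have h3 : ¬ (D.getD i none = some true ∧ D.getD i none = some false) := by
    rintro ⟨h, h'⟩
    rw [h] at h'
    exact absurd h' (by decide)
  split_ifs at h2 ⊢ <;> omega

/-! ### The constraints -/

/-- `j` is the next visit of the cell after `i`. -/
def consB (D : List (Option Bool)) (i j : ℕ) : Bool :=
  (decide (i < j) && decide (posN D i = posN D j)) &&
    (List.range D.length).all (fun l =>
      !((decide (i < l) && decide (l < j)) && decide (posN D l = posN D i)))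

/-- Related times. -/
def relB (D : List (Option Bool)) (i j : ℕ) : Bool :=
  (decide (j = i + 1) || decide (i = j + 1)) || (consB D i j || consB D j i)

/-- The constraints on the transition at the time `i`. -/
def unB (H : List ℕ) (D : List (Option Bool)) (i : ℕ) (t : Trans) : Bool :=
  (decide (t.2.2.2.2 = D.getD i none) && (!(decide (i = 0)) || decide (t.1 = 0))) &&
    (((List.range D.length).any (fun l => decide (l < i) && decide (posN D l = posN D i)) ||
      decide (t.2.1 = 0)) && (!(decide (i + 1 = D.length)) || decide (t.2.2.1 ∈ H)))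

/-- The constraints on the transitions at the times `i < j`. -/
def c0B (D : List (Option Bool)) (i : ℕ) (t : Trans) (j : ℕ) (t' : Trans) : Bool :=
  (!(decide (j = i + 1)) || decide (t'.1 = t.2.2.1)) &&
    (!(consB D i j) || decide (t'.2.1 = t.2.2.2.1))

/-- The constraints on the transitions at two times. -/
def coB (D : List (Option Bool)) (i : ℕ) (t : Trans) (j : ℕ) (t' : Trans) : Bool :=
  bif decide (i < j) then c0B D i t j t' else c0B D j t' i t

/-- The time `i` is needed as long as a related time has not been processed. -/
def needB (D : List (Option Bool)) (P : List ℕ) (i : ℕ) : Bool :=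
  (List.range D.length).any (fun j => !(decide (j ∈ P)) && relB D i j)

theorem consB_iff {D : List (Option Bool)} {i j : ℕ} (hj : j < D.length) :
    consB D i j = true ↔ Cons (posN D) i j := by
  unfold consB Cons
  rw [Bool.and_eq_true, Bool.and_eq_true, decide_eq_true_iff, decide_eq_true_iff,
    List.all_eq_true, and_assoc]
  refine and_congr_right fun h1 => and_congr_right fun _ => ?_
  constructor
  · intro h l h2 h3 h4
    have h5 := h l (List.mem_range.mpr (by omega))
    rw [decide_eq_true h2, decide_eq_true h3, decide_eq_true h4] at h5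
    exact absurd h5 (by decide)
  · intro h l _
    by_cases h2 : i < l
    · by_cases h3 : l < j
      · have h4 := h l h2 h3
        rw [decide_eq_true h2, decide_eq_true h3, decide_eq_false h4]
        rfl
      · rw [decide_eq_false h3, Bool.and_false, Bool.false_and]
        rfl
    · rw [decide_eq_false h2, Bool.false_and, Bool.false_and]
      rfl

theorem relB_iff {D : List (Option Bool)} {i j : ℕ} (hi : i < D.length) (hj : j < D.length) :
    relB D i j = true ↔ Rel (posN D) i j := by
  unfold relB Rel
  rw [Bool.or_eq_true, Bool.or_eq_true, Bool.or_eq_true, decide_eq_true_iff,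
    decide_eq_true_iff, consB_iff hj, consB_iff hi, or_assoc]

/-- The transitions satisfy the constraints. -/
def Good (M : Machine) (D : List (Option Bool)) (δ : ℕ → Trans) : Prop :=
  (∀ i < D.length, δ i ∈ M.1 ∧ unB M.2 D i (δ i) = true) ∧
    ∀ i j, i < j → j < D.length → c0B D i (δ i) j (δ j) = true

theorem exists_last {Q : ℕ → Prop} {i : ℕ} (h : ∃ l < i, Q l) :
    ∃ l < i, Q l ∧ ∀ l', l < l' → l' < i → ¬ Q l' := by
  induction i with
  | zero =>
    obtain ⟨l, hl, _⟩ := h
    omega
  | succ i ih =>
    by_cases hi : Q i
    · exact ⟨i, Nat.lt_succ_self i, hi, fun l' h1 h2 => by omega⟩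
    · obtain ⟨l, hl, hQ⟩ := h
      have hli : l < i := by
        rcases Nat.lt_succ_iff_lt_or_eq.mp hl with h | h
        · exact h
        · exact absurd (h ▸ hQ) hi
      obtain ⟨l, hl, hQ, hlast⟩ := ih ⟨l, hli, hQ⟩
      refine ⟨l, by omega, hQ, fun l' h1 h2 => ?_⟩
      rcases Nat.lt_succ_iff_lt_or_eq.mp h2 with h | h
      · exact hlast l' h1 h
      · exact h ▸ hi

theorem good_of_valid {M : Machine} {D : List (Option Bool)} {δ : ℕ → Trans}
    (hD : ∀ i < D.length, (δ i).2.2.2.2 = D.getD i none) (hv : Valid M δ D.length)
    (hf : (runc δ D.length).state ∈ M.2) : Good M D δ := by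
  have hpos : ∀ {i j : ℕ}, i ≤ D.length → j ≤ D.length →
      (posN D i = posN D j ↔ (runc δ i).head = (runc δ j).head) := fun hi hj =>
    posN_eq_iff D δ hD hi hj
  constructor
  · intro i hi
    obtain ⟨h1, h2, h3⟩ := hv i hi
    refine ⟨h1, ?_⟩
    unfold unB
    rw [Bool.and_eq_true, Bool.and_eq_true, Bool.and_eq_true, decide_eq_true_iff]
    refine ⟨⟨hD i hi, ?_⟩, ?_, ?_⟩
    · by_cases h0 : i = 0
      · subst h0
        have : (δ 0).1 = 0 := h2.symm
        rw [decide_eq_true this, Bool.or_true]
      · rw [decide_eq_false h0]
        rfl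
    · by_cases hany : ∃ l < i, (runc δ l).head = (runc δ i).head
      · obtain ⟨l, hl, hh⟩ := hany
        have : (List.range D.length).any
            (fun l => decide (l < i) && decide (posN D l = posN D i)) = true := by
          rw [List.any_eq_true]
          refine ⟨l, List.mem_range.mpr (by omega), ?_⟩
          rw [decide_eq_true hl, decide_eq_true ((hpos (by omega) hi.le).mpr hh)]
          rfl
        rw [this, Bool.true_or]
      · have h4 : (runc δ i).tape (runc δ i).head = 0 :=
          tape_none (fun l hl hh => hany ⟨l, hl, hh⟩)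
        rw [h3] at h4
        rw [decide_eq_true h4, Bool.or_true]
    · by_cases h0 : i + 1 = D.length
      · have h4 : (δ i).2.2.1 ∈ M.2 := by
          rw [← h0] at hf
          exact hf
        rw [decide_eq_true h4, Bool.or_true]
      · rw [decide_eq_false h0]
        rfl
  · intro i j hij hj
    obtain ⟨h1, h2, h3⟩ := hv j hj
    unfold c0B
    rw [Bool.and_eq_true]
    constructor
    · by_cases h0 : j = i + 1
      · subst h0
        have h4 : (δ (i + 1)).1 = (δ i).2.2.1 := h2.symm
        rw [decide_eq_true h4, Bool.or_true]
      · rw [decide_eq_false h0]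
        rfl
    · by_cases hc : consB D i j = true
      · rw [hc]
        rw [consB_iff hj] at hc
        have hh := (hpos (by omega) hj.le).mp hc.2.1
        have h4 := tape_last (δ := δ) hc.1 hh (fun l' h5 h6 h7 => hc.2.2 l' h5 h6
          ((hpos (by omega) (by omega)).mpr (h7.trans hh.symm)))
        rw [h3] at h4
        rw [decide_eq_true h4, Bool.or_true]
      · rw [Bool.not_eq_true] at hc
        rw [hc]
        rfl

theorem valid_of_good {M : Machine} {D : List (Option Bool)} {δ : ℕ → Trans} (hD0 : D ≠ [])
    (hg : Good M D δ) : Valid M δ D.length ∧ (runc δ D.length).state ∈ M.2 := by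
  have hlen : 0 < D.length := List.length_pos_iff.mpr hD0
  obtain ⟨hu, hc⟩ := hg
  have hun : ∀ i < D.length, (δ i).2.2.2.2 = D.getD i none ∧ (i = 0 → (δ i).1 = 0) ∧
      ((∀ l < i, posN D l ≠ posN D i) → (δ i).2.1 = 0) ∧
      (i + 1 = D.length → (δ i).2.2.1 ∈ M.2) := by
    intro i hi
    have h := (hu i hi).2
    unfold unB at h
    rw [Bool.and_eq_true, Bool.and_eq_true, Bool.and_eq_true, decide_eq_true_iff] at h
    obtain ⟨⟨h1, h2⟩, h3, h4⟩ := h
    refine ⟨h1, ?_, ?_, ?_⟩
    · intro h0
      rw [decide_eq_true h0, Bool.not_true, Bool.false_or, decide_eq_true_iff] at h2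
      exact h2
    · intro hno
      rw [Bool.or_eq_true, decide_eq_true_iff, List.any_eq_true] at h3
      rcases h3 with ⟨l, _, h3⟩ | h3
      · rw [Bool.and_eq_true, decide_eq_true_iff, decide_eq_true_iff] at h3
        exact absurd h3.2 (hno l h3.1)
      · exact h3
    · intro h0
      rw [decide_eq_true h0, Bool.not_true, Bool.false_or, decide_eq_true_iff] at h4
      exact h4
  have hD : ∀ i < D.length, (δ i).2.2.2.2 = D.getD i none := fun i hi => (hun i hi).1
  have hpos : ∀ {i j : ℕ}, i ≤ D.length → j ≤ D.length →
      (posN D i = posN D j ↔ (runc δ i).head = (runc δ j).head) := fun hi hj =>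
    posN_eq_iff D δ hD hi hj
  constructor
  · intro i hi
    refine ⟨(hu i hi).1, ?_, ?_⟩
    · cases i with
      | zero => exact ((hun 0 hi).2.1 rfl).symm
      | succ i =>
        have h := hc i (i + 1) (Nat.lt_succ_self i) hi
        unfold c0B at h
        rw [Bool.and_eq_true, decide_eq_true (rfl : i + 1 = i + 1), Bool.not_true,
          Bool.false_or, decide_eq_true_iff] at h
        exact h.1.symm
    · by_cases hany : ∃ l < i, (runc δ l).head = (runc δ i).head
      · obtain ⟨l, hl, hh, hlast⟩ := exists_last hany
        have h4 := tape_last (δ := δ) hl hh hlast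
        rw [h4]
        have h := hc l i hl hi
        have hcons : consB D l i = true := by
          rw [consB_iff hi]
          refine ⟨hl, (hpos (by omega) hi.le).mpr hh, fun l' h5 h6 h7 => ?_⟩
          exact hlast l' h5 h6 (((hpos (by omega) (by omega)).mp h7).trans hh)
        unfold c0B at h
        rw [Bool.and_eq_true, hcons, Bool.not_true, Bool.false_or, decide_eq_true_iff] at h
        exact h.2.symm
      · have h4 : (runc δ i).tape (runc δ i).head = 0 :=
          tape_none (fun l hl hh => hany ⟨l, hl, hh⟩)
        rw [h4]
        refine ((hun i hi).2.2.1 fun l hl h5 => hany ⟨l, hl, ?_⟩).symm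
        exact (hpos (by omega) hi.le).mp h5
  · obtain ⟨m, hm⟩ : ∃ m, D.length = m + 1 := ⟨D.length - 1, by omega⟩
    rw [hm]
    exact (hun m (by omega)).2.2.2 hm.symm

theorem halts_iff_good (M : Machine) (k : ℕ) :
    Halts M k ↔ 0 ∈ M.2 ∨ ∃ D : List (Option Bool), D ≠ [] ∧ D.length ≤ k ∧ ∃ δ, Good M D δ := by
  rw [halts_iff_valid]
  constructor
  · rintro ⟨m, hm, δ, hv, hf⟩
    rcases Nat.eq_zero_or_pos m with h0 | h0
    · subst h0
      exact Or.inl hf
    · right
      let D : List (Option Bool) := (List.range m).map (fun i => (δ i).2.2.2.2)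
      have hlen : D.length = m := by simp [D]
      have hD : ∀ i < D.length, (δ i).2.2.2.2 = D.getD i none := by
        intro i hi
        rw [hlen] at hi
        rw [List.getD_eq_getElem?_getD, List.getElem?_map, List.getElem?_range hi]
        rfl
      refine ⟨D, ?_, ?_, δ, ?_⟩
      · intro h
        rw [h] at hlen
        simp at hlen
        omega
      · rw [hlen]
        exact hm
      · refine good_of_valid hD ?_ ?_
        · rw [hlen]
          exact hv
        · rw [hlen]
          exact hf
  · rintro (h | ⟨D, hD0, hDk, δ, hg⟩)
    · exact ⟨0, Nat.zero_le k, fun _ => (0, 0, 0, 0, none), fun i hi => by omega, h⟩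
    · exact ⟨D.length, hDk, δ, valid_of_good hD0 hg⟩

end Pool.Agent.L5helper58.KS
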