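import Pool.Agent.L5helper58.KS.Circ

/-!
# Monotone circuits for the halting problem: the upper bound
-/

set_option autoImplicit false

namespace Pool.Agent.L5helper58.KS

open Pool.Agent.H520R2.NM

theorem sweep_mono {T : Type} [DecidableEq T] (dom : List T) {U U' : List (List (ℕ × T))}
    (un : ℕ → T → Bool) (co : ℕ → T → ℕ → T → Bool) (need : List ℕ → ℕ → Bool)
    (hU : ∀ v ∈ U, v ∈ U') (P : List ℕ) :
    ∀ v ∈ sweep dom U un co need P, v ∈ sweep dom U' un co need P := by
  induction P with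
  | nil => exact fun v hv => hv
  | cons i P ih =>
    intro v hv
    change v ∈ sweepStep dom U un co need (i :: P) i (sweep dom U un co need P) at hv
    change v ∈ sweepStep dom U' un co need (i :: P) i (sweep dom U' un co need P)
    unfold sweepStep at hv ⊢
    rw [List.mem_filter, List.any_eq_true] at hv ⊢
    obtain ⟨h1, u, hu, h2⟩ := hv
    exact ⟨hU v h1, u, ih u hu, h2⟩

theorem sound_gen {M : Machine} {k : ℕ} {D : List (Option Bool)} {r : ℕ}
    {U : List (List (ℕ × Trans))} (hr : r < Nat.sqrt k + 1) {v : List (ℕ × Trans)}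
    (hv : v ∈ sweep M.1 U (unB M.2 D) (coB D) (needB D)
      (order D (Nat.sqrt k + 1) r).reverse) : ∃ δ, Good M D δ := by
  have hmem : ∀ i, i ∈ (order D (Nat.sqrt k + 1) r).reverse ↔ i < D.length := fun i => by
    rw [List.mem_reverse, mem_order hr]
  have hnd : ((order D (Nat.sqrt k + 1) r).reverse).Nodup :=
    List.nodup_reverse.mpr (order_nodup D _ r)
  obtain ⟨δ, hδ, -⟩ := sweep_sound M.1 U (unB M.2 D) (coB D) (needB D) _ hnd
    (fun i Q _ j _ hj => need_mono hj)
    (fun i Q hQ j hj hjn t t' => by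
      have hi : i ∈ (order D (Nat.sqrt k + 1) r).reverse := hQ.subset (by simp)
      have hnd' := (hQ.sublist.nodup hnd)
      rw [List.nodup_cons] at hnd'
      exact co_of_not_need ((hmem i).mp hi) hnd'.1 hj hjn t t') v hv
  rw [Sats_iff] at hδ
  refine ⟨δ, fun i hi => hδ.1 i ((hmem i).mpr hi), fun i j hij hj => ?_⟩
  have := coB_symm D δ
  have := hδ.2.forall ((hmem i).mpr (by omega)) ((hmem j).mpr hj) (by omega)
  rwa [coB_lt _ _ hij] at this

/-- All nodes for tables with `n` states and symbols. -/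
noncomputable def nodesAll (n k m : ℕ) : List (List (ℕ × Trans)) :=
  tups ((List.range m).flatMap (fun i => (places n).map (fun e => (i, code e))))
    (2 * (Nat.sqrt k + 1))

theorem nodes_subset {n : ℕ} (x : Tab n → Bool) (k m : ℕ) :
    ∀ v ∈ nodes (machineOf x) k m, v ∈ nodesAll n k m := by
  intro v hv
  unfold nodes at hv
  unfold nodesAll
  rw [mem_tups] at hv ⊢
  refine ⟨hv.1, fun c hc => ?_⟩
  have h := hv.2 c hc
  unfold pairs at h
  rw [List.mem_flatMap] at h ⊢
  obtain ⟨i, hi, h⟩ := h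
  rw [List.mem_map] at h
  obtain ⟨t, ht, rfl⟩ := h
  rw [mem_machineOf] at ht
  obtain ⟨e, -, rfl⟩ := ht
  exact ⟨i, hi, List.mem_map.mpr ⟨e, by simp [places], rfl⟩⟩

/-- The pairs of a list of directions and an offset. -/
def cfgs (k : ℕ) : List (List (Option Bool) × ℕ) :=
  ((tups [none, some false, some true] k).filter (fun D => !D.isEmpty)).flatMap
    (fun D => (List.range (Nat.sqrt k + 1)).map (fun r => (D, r)))

theorem mem_cfgs {k : ℕ} {c : List (Option Bool) × ℕ} :
    c ∈ cfgs k ↔ c.1 ≠ [] ∧ c.1.length ≤ k ∧ c.2 < Nat.sqrt k + 1 := by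
  unfold cfgs
  rw [List.mem_flatMap]
  constructor
  · rintro ⟨D, hD, h⟩
    rw [List.mem_filter, mem_tups, Bool.not_eq_true', List.isEmpty_eq_false_iff] at hD
    rw [List.mem_map] at h
    obtain ⟨r, hr, rfl⟩ := h
    exact ⟨hD.2, hD.1.1, List.mem_range.mp hr⟩
  · rintro ⟨h1, h2, h3⟩
    refine ⟨c.1, ?_, ?_⟩
    · rw [List.mem_filter, mem_tups, Bool.not_eq_true', List.isEmpty_eq_false_iff]
      refine ⟨⟨h2, fun d _ => ?_⟩, h1⟩
      rcases d with _ | _ | _ <;> simp
    · rw [List.mem_map]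
      exact ⟨c.2, List.mem_range.mpr h3, rfl⟩

theorem length_cfgs (k : ℕ) : (cfgs k).length ≤ 4 ^ k * (Nat.sqrt k + 1) := by
  unfold cfgs
  rw [List.length_flatMap]
  simp only [List.length_map, List.length_range, List.map_const', List.sum_replicate, smul_eq_mul]
  refine Nat.mul_le_mul_right _ ((List.length_filter_le _ _).trans ?_)
  exact length_tups _ k

/-- The function of one configuration and one node. -/
noncomputable def cfF (n k : ℕ) (c : List (Option Bool) × ℕ) (v : List (ℕ × Trans)) :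
    (Tab n → Bool) → Bool :=
  swF (nodesAll n k c.1.length) (unB [1] c.1) (coB c.1) (needB c.1)
    (order c.1 (Nat.sqrt k + 1) c.2).reverse v

theorem halts_iff_cf {n k : ℕ} (x : Tab n → Bool) :
    Halts (machineOf x) k ↔ ∃ c ∈ cfgs k, ∃ v ∈ nodesAll n k c.1.length,
      cfF n k c v x = true := by
  rw [← algB_iff]
  unfold algB
  rw [Bool.or_eq_true, decide_eq_true_iff, List.any_eq_true]
  constructor
  · rintro (h | ⟨D, hD, h⟩)
    · have h' : (0 : ℕ) ∈ ([1] : List ℕ) := h
      simp at h'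
    · rw [mem_tups] at hD
      rw [Bool.and_eq_true, Bool.not_eq_true', List.isEmpty_eq_false_iff, List.any_eq_true] at h
      obtain ⟨h0, r, hr, h⟩ := h
      rw [acceptB_eq, Bool.not_eq_true', List.isEmpty_eq_false_iff] at h
      obtain ⟨v, hv⟩ := List.exists_mem_of_ne_nil _ h
      have hv2 := sweep_mono _ _ _ _ (nodes_subset x k D.length) _ v hv
      refine ⟨(D, r), mem_cfgs.mpr ⟨h0, hD.1, List.mem_range.mp hr⟩, v, ?_, ?_⟩
      · refine sweep_subset _ _ _ _ _ ?_ _ v hv2
        unfold nodesAll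
        rw [mem_tups]
        exact ⟨Nat.zero_le _, fun c hc => absurd hc (by simp)⟩
      · unfold cfF swF
        rw [decide_eq_true_iff]
        exact hv2
  · rintro ⟨c, hc, v, -, h⟩
    rw [mem_cfgs] at hc
    unfold cfF swF at h
    rw [decide_eq_true_iff] at h
    obtain ⟨δ, hδ⟩ := sound_gen (M := machineOf x) hc.2.2 h
    have hh := (halts_iff_good (machineOf x) k).mpr (Or.inr ⟨c.1, hc.1, hc.2.1, δ, hδ⟩)
    have hh2 := (algB_iff (machineOf x) k).mpr hh
    unfold algB at hh2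
    rw [Bool.or_eq_true, decide_eq_true_iff, List.any_eq_true] at hh2
    exact hh2

theorem length_order_le (D : List (Option Bool)) {s r : ℕ} (hr : r < s) :
    (order D s r).length ≤ D.length := by
  rw [← List.toFinset_card_of_nodup (order_nodup D s r)]
  have : (order D s r).toFinset ⊆ Finset.range D.length := by
    intro i hi
    rw [List.mem_toFinset, mem_order hr] at hi
    exact Finset.mem_range.mpr hi
  simpa using Finset.card_le_card this

theorem length_nodesAll {n k m : ℕ} (hm : m ≤ k) :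
    (nodesAll n k m).length ≤ (k * (3 * n ^ 4) + 1) ^ (2 * (Nat.sqrt k + 1)) := by
  unfold nodesAll
  refine (length_tups _ _).trans (Nat.pow_le_pow_left (Nat.add_le_add_right ?_ 1) _)
  rw [List.length_flatMap]
  simp only [List.length_map, length_places, List.map_const', List.sum_replicate, smul_eq_mul,
    List.length_range]
  exact Nat.mul_le_mul_right _ hm

theorem build_cfgs (n k : ℕ) (L : List (List (Option Bool) × ℕ)) (hL : ∀ c ∈ L, c ∈ cfgs k) :
    Build {f | ∃ c ∈ L, ∃ v ∈ nodesAll n k c.1.length, f = cfF n k c v}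
      (L.length * (k * ((k * (3 * n ^ 4) + 1) ^ (2 * (Nat.sqrt k + 1)) *
        (2 * ((k * (3 * n ^ 4) + 1) ^ (2 * (Nat.sqrt k + 1)) * (3 * n ^ 4)))))) := by
  induction L with
  | nil =>
    refine (Build.base ∅ (fun f hf => hf.elim)).mono ?_ (Nat.zero_le _)
    rintro f ⟨c, hc, -⟩
    exact absurd hc (by simp)
  | cons c L ih =>
    have h1 := ih (fun c' hc' => hL c' (List.mem_cons_of_mem _ hc'))
    have hc := mem_cfgs.mp (hL c (by simp))
    have hnil : ([] : List (ℕ × Trans)) ∈ nodesAll n k c.1.length := by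
      unfold nodesAll
      rw [mem_tups]
      exact ⟨Nat.zero_le _, fun c hc => absurd hc (by simp)⟩
    have h2 := build_sweep (nodesAll n k c.1.length) (unB [1] c.1) (coB c.1) (needB c.1) hnil _ _
      h1 (order c.1 (Nat.sqrt k + 1) c.2).reverse
    refine h2.mono ?_ ?_
    · rintro f ⟨c', hc', v, hv, rfl⟩
      rcases List.mem_cons.mp hc' with rfl | hc'
      · exact Or.inl ⟨v, hv, rfl⟩
      · exact Or.inr ⟨c', hc', v, hv, rfl⟩
    · rw [List.length_cons, List.length_reverse]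
      have e1 := (length_order_le c.1 hc.2.2).trans hc.2.1
      have e2 := length_nodesAll (n := n) hc.2.1
      have e3 : ∀ a b : ℕ, a ≤ k → b ≤ (k * (3 * n ^ 4) + 1) ^ (2 * (Nat.sqrt k + 1)) →
          a * (b * (2 * (b * (3 * n ^ 4)))) ≤
          k * ((k * (3 * n ^ 4) + 1) ^ (2 * (Nat.sqrt k + 1)) *
        (2 * ((k * (3 * n ^ 4) + 1) ^ (2 * (Nat.sqrt k + 1)) * (3 * n ^ 4)))) := by
        intro a b ha hb
        gcongr
      have e4 := e3 _ _ e1 e2
      exact (Nat.add_le_add_left e4 _).trans (le_of_eq (Nat.succ_mul _ _).symm)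

theorem upper_arith {n k s G : ℕ} (hn : 1 ≤ n) (hs : s = Nat.sqrt k + 1)
    (hG : G ≤ 4 ^ k * s) :
    G * (k * ((k * (3 * n ^ 4) + 1) ^ (2 * s) *
      (2 * ((k * (3 * n ^ 4) + 1) ^ (2 * s) * (3 * n ^ 4))))) +
      2 * (G * (k * (3 * n ^ 4) + 1) ^ (2 * s)) ≤
    (4 ^ k * s * (6 * k + 2) * (3 * k + 1) ^ (4 * s)) * n ^ (20 * s) := by
  have hn4 : 1 ≤ n ^ 4 := Nat.one_le_pow _ _ hn
  have h1 : k * (3 * n ^ 4) + 1 ≤ (3 * k + 1) * n ^ 4 := by nlinarith
  obtain ⟨B, hB⟩ : ∃ B, B = (k * (3 * n ^ 4) + 1) ^ (2 * s) := ⟨_, rfl⟩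
  have hB1 : 1 ≤ B := by
    rw [hB]
    exact Nat.one_le_pow _ _ (Nat.succ_pos _)
  have hB2 : B * B ≤ (3 * k + 1) ^ (4 * s) * n ^ (16 * s) := by
    have h2 : B ≤ ((3 * k + 1) * n ^ 4) ^ (2 * s) := by
      rw [hB]
      exact Nat.pow_le_pow_left h1 _
    calc B * B ≤ ((3 * k + 1) * n ^ 4) ^ (2 * s) * ((3 * k + 1) * n ^ 4) ^ (2 * s) :=
          Nat.mul_le_mul h2 h2
      _ = ((3 * k + 1) * n ^ 4) ^ (4 * s) := by
          rw [← pow_add]
          congr 1
          ring
      _ = (3 * k + 1) ^ (4 * s) * n ^ (16 * s) := by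
          rw [mul_pow, ← pow_mul]
          congr 2
          ring
  have hn16 : n ^ (16 * s) * n ^ 4 ≤ n ^ (20 * s) := by
    rw [← pow_add]
    exact Nat.pow_le_pow_right hn (by omega)
  rw [← hB]
  calc G * (k * (B * (2 * (B * (3 * n ^ 4))))) + 2 * (G * B)
      = G * (6 * k * (B * B) * n ^ 4) + G * (2 * B) := by ring
    _ ≤ G * (6 * k * (B * B) * n ^ 4) + G * (2 * (B * B) * n ^ 4) := by
        refine Nat.add_le_add_left (Nat.mul_le_mul_left G ?_) _
        calc 2 * B = 2 * (B * 1) * 1 := by ring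
          _ ≤ 2 * (B * B) * n ^ 4 := by gcongr
    _ = G * ((6 * k + 2) * ((B * B) * n ^ 4)) := by ring
    _ ≤ (4 ^ k * s) * ((6 * k + 2) * (((3 * k + 1) ^ (4 * s) * n ^ (16 * s)) * n ^ 4)) := by
        gcongr
    _ = (4 ^ k * s * (6 * k + 2) * (3 * k + 1) ^ (4 * s)) * (n ^ (16 * s) * n ^ 4) := by ring
    _ ≤ _ := Nat.mul_le_mul_left _ hn16

/-- The upper bound. -/
theorem upper (k n : ℕ) (hn : 1 ≤ n) :
    ∃ (N : ℕ) (C : Circuit (Tab n) N) (out : Wire (Tab n) N), C.fanins = [] ∧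
      C.size ≤ (4 ^ k * (Nat.sqrt k + 1) * (6 * k + 2) * (3 * k + 1) ^ (4 * (Nat.sqrt k + 1))) *
        n ^ (20 * (Nat.sqrt k + 1)) ∧
      ∀ x, out.eval x (C.vals x) = true ↔ Halts (machineOf x) k := by
  classical
  have h1 := build_cfgs n k (cfgs k) (fun c hc => hc)
  have h2 := h1.const true
  let L : List (((Tab n → Bool) → Bool) × ((Tab n → Bool) → Bool)) :=
    (cfgs k).flatMap (fun c => (nodesAll n k c.1.length).map (fun v =>
      ((fun _ => true), cfF n k c v)))
  have h3 := h2.any L (by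
    intro p hp
    rw [List.mem_flatMap] at hp
    obtain ⟨c, hc, hp⟩ := hp
    rw [List.mem_map] at hp
    obtain ⟨v, hv, rfl⟩ := hp
    exact ⟨Or.inl rfl, Or.inr ⟨c, hc, v, hv, rfl⟩⟩)
  have hLlen : L.length ≤ (cfgs k).length *
      (k * (3 * n ^ 4) + 1) ^ (2 * (Nat.sqrt k + 1)) := by
    have key : ∀ (L' : List (List (Option Bool) × ℕ)), (∀ c ∈ L', c ∈ cfgs k) →
        (L'.flatMap (fun c => (nodesAll n k c.1.length).map (fun v =>
          (((fun _ => true), cfF n k c v) :
            ((Tab n → Bool) → Bool) × ((Tab n → Bool) → Bool))))).length ≤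
        L'.length * (k * (3 * n ^ 4) + 1) ^ (2 * (Nat.sqrt k + 1)) := by
      intro L' hL'
      induction L' with
      | nil => simp
      | cons c L' ih =>
        have h5 := ih (fun c' hc' => hL' c' (List.mem_cons_of_mem _ hc'))
        have h6 := length_nodesAll (n := n) (mem_cfgs.mp (hL' c (by simp))).2.1
        rw [List.flatMap_cons, List.length_append, List.length_map, List.length_cons,
          Nat.add_mul L'.length 1, one_mul]
        omega
    exact key _ (fun c hc => hc)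
  obtain ⟨N, C, hC1, hC2, hC3⟩ := h3
  obtain ⟨out, hout⟩ := hC3 _ (Set.mem_insert _ _)
  refine ⟨N, C, out, hC1, ?_, fun x => ?_⟩
  · refine hC2.trans ?_
    refine le_trans (Nat.add_le_add_left (Nat.mul_le_mul_left 2 hLlen) _) ?_
    exact upper_arith hn rfl (length_cfgs k)
  · rw [hout, halts_iff_cf]
    unfold anyF
    rw [List.any_eq_true]
    constructor
    · rintro ⟨p, hp, h⟩
      rw [List.mem_flatMap] at hp
      obtain ⟨c, hc, hp⟩ := hp
      rw [List.mem_map] at hp
      obtain ⟨v, hv, rfl⟩ := hp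
      exact ⟨c, hc, v, hv, by simpa using h⟩
    · rintro ⟨c, hc, v, hv, h⟩
      refine ⟨((fun _ => true), cfF n k c v), ?_, by simpa using h⟩
      rw [List.mem_flatMap]
      exact ⟨c, hc, List.mem_map.mpr ⟨v, hv, rfl⟩⟩

end Pool.Agent.L5helper58.KS
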